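import Pool.Agent.H53.JM.Inp
import Pool.Agent.H67.SPN.Sig

/-!
# Plan M: one member, two calm levels and one falling level

Four coordinates `c 0, c 1, c 2, c 3` (two calm ones `y`, `z`, the falling one `v`, the height `N`).
`nx`: natural coordinates of the exact point in the affine chart of the window `w₀`; `nt`: natural
time. A leaf of a label of the window `w₁` is given in two ways. Its sheets: the pair (sheet `0` of
`v`, sheet `1` of the height) of affine functions of the natural coordinates `(time, y, z)`; and in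
the cell of a point, of depth `d`, an array `a` in the three coordinates of the cell, with values
`N / 2 ^ sg`.
`PlnM`: on the large event `E` of pairs of samples of one line, the first point is on its own leaf
and on the leaf of the second sample, the slopes of the two sheets of `v` in the direction `z` are
separated, and the two descriptions of the leaves agree. `M e`: the size of the gradients of the two
arrays in natural units. The arrays are used only if the height varies on the width of the leaf of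
`v` by more than its precision (`Thk`).
`PlnMS`: the same in a class.
-/

set_option autoImplicit false

namespace Pool.PM

open Finset Real MvPolynomial
open Pool.Agent.H49.Ent Pool.Agent.H32.Dense Pool.STK Pool.KA Pool.KSAT Pool.K2S Pool.PB
  Pool.STAT Pool.GEN Pool.M3F Pool.KM7 Pool.S6C Pool.JPN
open Pool.JMN (shf tdg)
open Pool.SPN (sg1)

variable {m J : ℕ}

/-- The natural coordinates of the exact point. -/
noncomputable def nx (F : Fam m J) (c : ℕ → Fin m) {V₀ : Type} (P : V₀ → ℕ → PN)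
    (z₀ : PtT F → V₀) (g : ℕ → ℕ) (ω : F.Ω) (i : ℕ) : ℝ := (2 : ℝ) ^ g i * ntc F c P z₀ ω i

/-- The natural time. -/
noncomputable def nt (F : Fam m J) (w₀ : ℕ) (ω : F.Ω) : ℝ := (2 : ℝ) ^ w₀ * F.t ω - F.T1 w₀ ω

/-- An affine function of natural time, `y`, `z`. -/
def lev (q : Fin 4 → ℝ) (τ y z : ℝ) : ℝ := q 0 + q 1 * τ + q 2 * y + q 3 * z

/-- The value of a sheet over the first point. -/
noncomputable def lfv (F : Fam m J) (c : ℕ → Fin m) {V₀ : Type} (P : V₀ → ℕ → PN)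
    (z₀ : PtT F → V₀) (g : ℕ → ℕ) (w₀ : ℕ) (q : Fin 4 → ℝ) (ω : F.Ω) : ℝ :=
  lev q (nt F w₀ ω) (nx F c P z₀ g ω 0) (nx F c P z₀ g ω 1)

/-- The coefficients of order one of the array `q` at the point `y` of the cell, without the
gradient `χ` of the chart. -/
def gr {K : ℕ} (hK : 1 ≤ K) (y : Fin 3 → ℝ) (q : (Fin 3 → Fin (K + 1)) → ℝ) (χ : Fin 3 → ℝ)
    (i : Fin 3) : ℝ := shf y q (sg1 hK i) - χ i

/-- The width of the leaf is larger than the precision of the height. -/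
def Thk (h L Ln : ℕ) (M : ℝ) : Prop := (2 : ℝ) ^ (L + h) < M * 2 ^ Ln

/-- **One member.** `h`: sizes and separation; `L`: precision of the sheets of `v`; `Ln`: precision
of the sheets of the height; `d`: depth of the cell; `θ`: the arrays are affine in the cell up to the
relative error `2 ^ (-θ)`; `sg`, `Pn`, `G` as in `GeoJ`; `η`: mass of the bad pairs. -/
structure PlnM {K : ℕ} (hK : 1 ≤ K) (F : Fam m J) (A : F.Ω → Prop) (c : ℕ → Fin m)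
    (w₀ w₁ h θ d L Ln sg Pn G : ℕ) (η : ℝ) (g : ℕ → ℕ) {V₀ V₁ : Type} (P : V₀ → ℕ → PN)
    (z₀ : PtT F → V₀) (z₀' : LnT F → V₀) (z₁ : PtT F → V₁) (z₁' : LnT F → V₁)
    (lf : V₁ → V₀ → Fin 2 → Fin 4 → ℝ) {n₀ : ℕ} (br : F.Ω × F.Ω → Fin n₀)
    (a : F.Ω × F.Ω → (Fin 3 → Fin (K + 1)) → ℝ) (b : F.Ω → (Fin 3 → Fin (K + 1)) → ℝ)
    (χ : V₀ → Fin 3 → ℝ) (M : F.Ω × F.Ω → ℝ) (E : F.Ω × F.Ω → Prop) : Prop where
  /-- the chart at the window `w₀` is triangular -/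
  tri : ∀ v, TriN (P v)
  /-- the chart is affine -/
  aff : ∀ v i, (P v i).totalDegree ≤ 1
  /-- the chart is closed at the window `w₀` -/
  cls₀ : ∀ ω, A ω → z₀ (ptr F J ω) = z₀' (slam F w₀ ω)
  /-- the label is closed at the window `w₁` -/
  cls₁ : ∀ ω, A ω → z₁ (ptr F J ω) = z₁' (slam F w₁ ω)
  /-- the points are in the natural boxes -/
  pos : ∀ ω, A ω → ∀ i < 4, |ntc F c P z₀ ω i| ≤ 1 / 2 ^ g i
  /-- the event is large -/
  mass : 1 - η ≤ Pe (P2 (Pool.Agent.H49.Ent.cond F.p A True) (slam F w₀)) E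
  /-- the first point is on its own leaf -/
  own₀ : ∀ e, E e → |nx F c P z₀ g e.1 2 -
    lfv F c P z₀ g w₀ (lf (z₁ (ptr F J e.1)) (z₀ (ptr F J e.1)) 0) e.1| ≤ 1 / 2 ^ L
  own₁ : ∀ e, E e → |nx F c P z₀ g e.1 3 -
    lfv F c P z₀ g w₀ (lf (z₁ (ptr F J e.1)) (z₀ (ptr F J e.1)) 1) e.1| ≤
      1 / 2 ^ Ln + M e / 2 ^ L
  /-- the first point is on the leaf of the second sample -/
  onl₀ : ∀ e, E e → |nx F c P z₀ g e.1 2 -
    lfv F c P z₀ g w₀ (lf (z₁ (ptr F J e.2)) (z₀ (ptr F J e.1)) 0) e.1| ≤ 1 / 2 ^ L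
  onl₁ : ∀ e, E e → |nx F c P z₀ g e.1 3 -
    lfv F c P z₀ g w₀ (lf (z₁ (ptr F J e.2)) (z₀ (ptr F J e.1)) 1) e.1| ≤
      1 / 2 ^ Ln + M e / 2 ^ L
  /-- natural sizes -/
  siz : ∀ e, E e → ∀ (j : Fin 2) (i : Fin 4),
    |lf (z₁ (ptr F J e.1)) (z₀ (ptr F J e.1)) j i| ≤ 2 ^ h ∧
    |lf (z₁ (ptr F J e.2)) (z₀ (ptr F J e.1)) j i| ≤ 2 ^ h
  /-- the times are separated -/
  tsp : ∀ e, E e → 1 / 2 ^ h ≤ |nt F w₀ e.1 - nt F w₀ e.2|
  /-- the slopes of the sheets of `v` are separated -/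
  fal : ∀ e, E e → 1 / 2 ^ h ≤ |lf (z₁ (ptr F J e.1)) (z₀ (ptr F J e.1)) 0 3 -
    lf (z₁ (ptr F J e.2)) (z₀ (ptr F J e.1)) 0 3|
  /-- the leaf of the second sample, in the cell of the first one -/
  da : ∀ e e', E e → E e' → Thk h L Ln (M e) → Thk h L Ln (M e') →
    AA F z₁' w₁ e = AA F z₁' w₁ e' →
    WW 3 F c P z₀ z₀' g d w₀ br e = WW 3 F c P z₀ z₀' g d w₀ br e' → a e = a e'
  /-- the own leaf in the cell -/
  db : ∀ ω ω', A ω → A ω' → z₁' (slam F w₁ ω) = z₁' (slam F w₁ ω') → F.W ω = F.W ω' →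
    z₀' (slam F w₀ ω) = z₀' (slam F w₀ ω') → ce 3 F c P z₀ g d ω = ce 3 F c P z₀ g d ω' →
    b ω = b ω'
  na : ∀ e, E e → Thk h L Ln (M e) →
    |F.x e.1 (c 3) / 2 ^ sg - Pool.JMN.ev (a e) (yc 3 F c P z₀ g d e.1)| ≤ 1 / 2 ^ Pn
  nb : ∀ e, E e → Thk h L Ln (M e) →
    |F.x e.1 (c 3) / 2 ^ sg - Pool.JMN.ev (b e.1) (yc 3 F c P z₀ g d e.1)| ≤ 1 / 2 ^ Pn
  ga : ∀ e, E e → Thk h L Ln (M e) → ∀ z z' : Fin 3 → ℝ, (∀ l, |z l| ≤ 2) → (∀ l, |z' l| ≤ 2) →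
    |Pool.JMN.ev (a e) z - Pool.JMN.ev (a e) z'| ≤
      2 ^ G * ∑ l : Fin 3, |z l - z' l| / 2 ^ (g l + d)
  gb : ∀ e, E e → Thk h L Ln (M e) → ∀ z z' : Fin 3 → ℝ, (∀ l, |z l| ≤ 2) → (∀ l, |z' l| ≤ 2) →
    |Pool.JMN.ev (b e.1) z - Pool.JMN.ev (b e.1) z'| ≤
      2 ^ G * ∑ l : Fin 3, |z l - z' l| / 2 ^ (g l + d)
  /-- the size of the gradients, in natural units -/
  one : ∀ e, E e → 1 ≤ M e
  mle : ∀ e, E e → M e ≤ 2 ^ (L + h)
  up : ∀ e, E e → Thk h L Ln (M e) → ∀ i,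
    |gr hK (yc 3 F c P z₀ g d e.1) (a e) (χ (z₀ (ptr F J e.1))) i| ≤
      M e * (1 / 2 ^ (sg + g 3 + d)) ∧
    |gr hK (yc 3 F c P z₀ g d e.1) (b e.1) (χ (z₀ (ptr F J e.1))) i| ≤
      M e * (1 / 2 ^ (sg + g 3 + d))
  lo : ∀ e, E e → Thk h L Ln (M e) → M e = 1 ∨ ∃ i,
    M e * (1 / 2 ^ (sg + g 3 + d)) ≤
        |gr hK (yc 3 F c P z₀ g d e.1) (a e) (χ (z₀ (ptr F J e.1))) i| ∨
      M e * (1 / 2 ^ (sg + g 3 + d)) ≤
        |gr hK (yc 3 F c P z₀ g d e.1) (b e.1) (χ (z₀ (ptr F J e.1))) i|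
  /-- the arrays are nearly affine in the cell -/
  hi : ∀ e, E e → Thk h L Ln (M e) → ∀ al, 2 ≤ tdg al →
    |shf (yc 3 F c P z₀ g d e.1) (a e) al| ≤ M e * (1 / 2 ^ (sg + g 3 + d)) / 2 ^ θ ∧
    |shf (yc 3 F c P z₀ g d e.1) (b e.1) al| ≤ M e * (1 / 2 ^ (sg + g 3 + d)) / 2 ^ θ
  /-- the slope of the height on the leaf of the second sample -/
  lka : ∀ e, E e → Thk h L Ln (M e) → ∀ i : Fin 2,
    |1 / 2 ^ (sg + g 3 + d) * lf (z₁ (ptr F J e.2)) (z₀ (ptr F J e.1)) 1 (Fin.natAdd 2 i) -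
      (gr hK (yc 3 F c P z₀ g d e.1) (a e) (χ (z₀ (ptr F J e.1))) (Fin.castSucc i) +
        gr hK (yc 3 F c P z₀ g d e.1) (a e) (χ (z₀ (ptr F J e.1))) (Fin.last 2) *
          lf (z₁ (ptr F J e.2)) (z₀ (ptr F J e.1)) 0 (Fin.natAdd 2 i))| ≤
      2 ^ h * (1 / 2 ^ (sg + g 3 + d)) * (1 / 2 ^ Ln + M e / 2 ^ L)
  /-- the slope of the height on the own leaf -/
  lkb : ∀ e, E e → Thk h L Ln (M e) → ∀ i : Fin 2,
    |1 / 2 ^ (sg + g 3 + d) * lf (z₁ (ptr F J e.1)) (z₀ (ptr F J e.1)) 1 (Fin.natAdd 2 i) -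
      (gr hK (yc 3 F c P z₀ g d e.1) (b e.1) (χ (z₀ (ptr F J e.1))) (Fin.castSucc i) +
        gr hK (yc 3 F c P z₀ g d e.1) (b e.1) (χ (z₀ (ptr F J e.1))) (Fin.last 2) *
          lf (z₁ (ptr F J e.1)) (z₀ (ptr F J e.1)) 0 (Fin.natAdd 2 i))| ≤
      2 ^ h * (1 / 2 ^ (sg + g 3 + d)) * (1 / 2 ^ Ln + M e / 2 ^ L)

/-- **The same in a class.** `β i`, `i < 4`: the numbers of the affine chart at the window `w₀`
(`β 3`: the threshold of the affine labels of the height); `P1`, `sg`: precision and weight of the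
height at the window `w₁`; `y`: the length of the window together with the fall of the calm levels;
`mv`: the fall of `v`; `η`: mass of the bad pairs; the constant `C` may depend on `η`. -/
def PlnMS (S : PCl m) (c : ℕ → Fin m) (β : ℕ → ℝ) (w₀ w₁ y P1 sg mv cc η C : ℝ) : Prop :=
  ∀ s θ : ℝ, 0 < s → 0 < θ → C * y ≤ s → C * (s + θ) ≤ mv → C * (s + θ) ≤ cc →
    ∃ (K n₀ : ℕ) (hK : 1 ≤ K) (κ : ℝ), 0 < κ ∧ Bas S (fun J F A => ∃ (A' : F.Ω → Prop)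
      (g : ℕ → ℕ) (V₀ V₁ : Type) (P : V₀ → ℕ → PN) (z₀ : PtT F → V₀) (z₀' : LnT F → V₀)
      (z₁ : PtT F → V₁) (z₁' : LnT F → V₁) (lf : V₁ → V₀ → Fin 2 → Fin 4 → ℝ)
      (br : F.Ω × F.Ω → Fin n₀) (a : F.Ω × F.Ω → (Fin 3 → Fin (K + 1)) → ℝ)
      (b : F.Ω → (Fin 3 → Fin (K + 1)) → ℝ) (χ : V₀ → Fin 3 → ℝ) (M : F.Ω × F.Ω → ℝ)
      (E : F.Ω × F.Ω → Prop),
      Sub A' A ∧ κ * Pe F.p A ≤ Pe F.p A' ∧ (∀ i < 4, |(g i : ℝ) - β i * J| ≤ s * J) ∧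
      (∀ i < 3, g i + ⌊(mv + C * (s + θ)) * J⌋₊ ≤ J) ∧
      PlnM hK F A' c ⌊w₀ * J⌋₊ ⌊w₁ * J⌋₊ ⌊2 * C * s * J⌋₊ ⌊θ * J⌋₊ ⌊(mv + C * (s + θ)) * J⌋₊
        ⌊(mv - C * s) * J⌋₊ ⌊(P1 - β 3 - C * s) * J⌋₊ ⌊sg * J⌋₊ ⌊(P1 + sg - C * (s + θ)) * J⌋₊
        ⌊C * (s + θ) * J⌋₊ η g P z₀ z₀' z₁ z₁' lf br a b χ M E)

end Pool.PM
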