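import Pool.Agent.H22.M.Out
import Pool.Agent.H53.JM.Tilt

/-!
# Plan M: the assembly for two windows

`asm`: from the geometry of the members (`PlnMS`) and the four statements `DetS`, `HypS`, `TubRS`,
`CasM`, the rows between the threshold of the affine labels and the row `P1` are full.
-/

set_option autoImplicit false

namespace Pool.PM

open Finset Real MvPolynomial
open Pool.Agent.H49.Ent Pool.Agent.H32.Dense Pool.STK Pool.KA Pool.KSAT Pool.K2S Pool.PB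
  Pool.STAT Pool.GEN Pool.M3F Pool.KM7 Pool.S6C Pool.JPN
open Pool.MKC (C8 smp PC)
open Pool.JPR (bas_big)

variable {m J : ℕ}

/-- Good six samples from good pairs. -/
def SixM (m : ℕ) : Prop :=
  ∀ {J : ℕ} (F : Fam m J) (A : F.Ω → Prop) (K n₀ : ℕ) (D : PDat F K n₀) (R : ℕ) (x : ℝ),
    0 < Pe F.p A →
    1 - x ≤ Pe (P2 (pA F A) (slam F D.w₀)) (fun e => D.E e ∧ D.M e * 2 ^ R ≤ 2 ^ D.L) →
    1 - 10 * x ≤ Pe (PC (pA F A) (slam F D.w₀) (ptr F J)) (fun e => D.Six R e)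

section nf

variable {r : ℝ → ℝ} (hl : LipschitzWith 1 r) (hm : Monotone r)

theorem nfr_add (u v w : ℝ) : nfr r u v + nfr r v w = nfr r u w := by
  unfold nfr
  ring

include hl in
theorem nfr_nonneg {u v : ℝ} (h : u ≤ v) : 0 ≤ nfr r u v := by
  have h1 := hl.dist_le_mul v u
  rw [NNReal.coe_one, one_mul, Real.dist_eq, Real.dist_eq, abs_of_nonneg (by linarith :
    (0 : ℝ) ≤ v - u)] at h1
  unfold nfr
  linarith [(abs_le.1 h1).2]

include hl hm in
theorem nfr_le {u v x : ℝ} (h : v - u ≤ x) (hx : 0 ≤ x) : nfr r u v ≤ x := by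
  rcases le_total u v with h1 | h1
  · have h2 := hm h1
    unfold nfr
    linarith
  · have h2 := nfr_nonneg hl h1
    have h3 := nfr_add (r := r) u v u
    have h4 : nfr r u u = 0 := by
      unfold nfr
      ring
    linarith

end nf

theorem nat_fl' {x : ℝ} (hx : 0 ≤ x) (J : ℕ) :
    ((⌊x * J⌋₊ : ℕ) : ℝ) ≤ x * J ∧ x * J < ((⌊x * J⌋₊ : ℕ) : ℝ) + 1 :=
  ⟨Nat.floor_le (by positivity), Nat.lt_floor_add_one _⟩

/-- Two events which cover a large event. -/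
theorem two_ev {Ω : Type} [Fintype Ω] {p : Ω → ℝ} (E D : Ω → Prop) {x y : ℝ}
    (h1 : Pe p (fun e => E e ∧ D e) ≤ x) (h2 : Pe p (fun e => E e ∧ ¬ D e) ≤ y) :
    Pe p E ≤ x + y := by
  classical
  refine le_trans ?_ (add_le_add h1 h2)
  rw [Pe_eq, Pe_eq, Pe_eq, ← Finset.sum_add_distrib]
  refine Finset.sum_le_sum fun e _ => ?_
  by_cases hE : E e <;> by_cases hD : D e <;> simp [hE, hD]

theorem bas_no {S : PCl m} (hS : S.Ne) (h : Bas S (fun _ _ _ => False)) : False := by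
  obtain ⟨τ, hτ, J₁, h⟩ := h
  obtain ⟨J, hJ, F, A, hA⟩ := hS τ hτ J₁
  exact h J hJ F A hA

/-- The rows `(a, b)` after the multiplication by `J`. -/
theorem nfr_J {r : ℝ → ℝ} (hl : LipschitzWith 1 r) (hm : Monotone r) {u v x : ℝ} (hJ : 0 < (J : ℝ))
    (h : (v - u) * J ≤ x) (hx : 0 ≤ x) : nfr r u v * J ≤ x := by
  have h1 : v - u ≤ x / J := by rwa [le_div_iff₀ hJ]
  have h2 := nfr_le hl hm h1 (by positivity)
  rwa [le_div_iff₀ hJ] at h2

/-- The numbers. -/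
theorem asm_num {C Cp s θ : ℝ} (hC : 1 ≤ C) (hCp : 2 ≤ Cp) (hs : 0 < s)
    (hθ : 16 * (C + 1) * (Cp + 5) * s ≤ θ) : 224 * s ≤ θ ∧ C * s * 16 ≤ θ ∧ Cp * s * 32 ≤ θ ∧
      C * (Cp * s) * 16 ≤ θ ∧ 2 * ((Cp + 5) * s) ≤ θ := by
  have h1 : 0 ≤ (C - 1) * s := mul_nonneg (by linarith) hs.le
  have h2 : 0 ≤ (Cp - 2) * s := mul_nonneg (by linarith) hs.le
  have h3 : 0 ≤ (C - 1) * ((Cp - 2) * s) := mul_nonneg (by linarith) h2
  refine ⟨?_, ?_, ?_, ?_, ?_⟩ <;> nlinarith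

/-- The numbers of the mesh. -/
theorem asm_num2 {C Cp a T h t X θn : ℝ} (hC : 1 ≤ C) (w1 : 224 * a ≤ T)
    (w4 : C * (Cp * a) * 16 ≤ T) (w0 : h ≤ Cp * a) (j1 : 100 * (C + 1) ≤ a)
    (n1 : t ≤ T / 2) (m1 : X ≤ a) (b2 : T < θn + 1) :
    C * (h + 1) ≤ T / 16 + T / 64 ∧ t + X + C * (h + 1) < θn + 1 := by
  have w5 : C * h ≤ C * (Cp * a) := mul_le_mul_of_nonneg_left w0 (by linarith)
  have e1 : C * (h + 1) = C * h + C := by ring
  have e2 : C ≤ a / 100 := by linarith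
  constructor
  · rw [e1]
    linarith
  · rw [e1]
    linarith

/-- **One member**: the rows, multiplied by `J`. `a = s J`, `T = θ J`, `U = (P1 - β 3) J`,
`Bb = β 3 J`, `Pb = P1 J`. -/
theorem asm_out {r : ℝ → ℝ} (hl : LipschitzWith 1 r) (hm : Monotone r) {C : ℕ}
    {F : Fam m J} {A : F.Ω → Prop} {c : ℕ → Fin m} {K n₀ : ℕ} {D : PDat F K n₀}
    {Cp s θ u P1 b3 κ₁ ρ : ℝ} {X t R : ℕ} (hJ : 0 < (J : ℝ)) (hC : 1 ≤ C) (hCp : 2 ≤ Cp)
    (hs : 0 < s) (hθ : 0 < θ) (hu : u = P1 - b3) (hu0 : 0 ≤ u) (hρ0 : 0 < ρ) (hρ : 2 * ρ ≤ θ)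
    (w1 : 224 * (s * J) ≤ θ * J) (w2 : (C : ℝ) * (s * J) * 16 ≤ θ * J)
    (w3 : Cp * (s * J) * 32 ≤ θ * J) (w4 : (C : ℝ) * (Cp * (s * J)) * 16 ≤ θ * J)
    (j1 : 100 * ((C : ℝ) + 1) ≤ s * J) (j2 : 1 ≤ θ * θ * J)
    (a1 : (D.h : ℝ) ≤ Cp * (s * J)) (hh : (D.h : ℝ) / J + ρ ≤ θ)
    (m1 : (X : ℝ) ≤ s * J) (n1 : (t : ℝ) ≤ θ / 2 * J)
    (e1 : (D.Ln : ℝ) ≤ u * J) (e2 : (u - Cp * s) * J < D.Ln + 1)
    (hdL : (D.d : ℝ) - D.L ≤ Cp * (2 * (s * J) + θ * J) + 1)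
    (k2 : P1 * J - Cp * (s * J + θ * J) ≤ (D.Pn : ℝ) - D.sg + 1)
    (k1 : (D.Pn : ℝ) - D.sg ≤ P1 * J + 1)
    (l1 : (D.G : ℝ) ≤ Cp * (s * J + θ * J)) (gl : b3 * J - s * J ≤ D.g 3)
    (gu : (D.g 3 : ℝ) ≤ b3 * J + s * J) (_r1 : R ≤ D.L) (r2 : R ≤ D.Ln) (hLJ : D.L ≤ J)
    (hΔ : (C : ℝ) * (D.h + 1) ≤ θ * J / 16 + θ * J / 64) (hPnJ : D.Pn ≤ J)
    (h12 : R < t ∨ (R : ℝ) * Real.log 2 ≤
      (r ((D.g 3 + R : ℕ) / J) - r ((D.g 3 : ℕ) / J)) * Real.log 2 * J +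
      C * (ρ * J + √((D.L : ℝ) - R) + √(((t : ℝ) + 1) * R) + (t + 1)))
    (hcase : D.Ln ≤ R + X + C * (D.h + 1) ∨
      (∃ p : ℕ, p + D.L ≤ R + D.d + t + X + C * (D.h + 1) ∧
        κ₁ ≤ Pe (P2 (pA F A) (slam F D.w₀)) (fun e => D.E e ∧ Thk D.h D.L D.Ln (D.M e) ∧
            D.Lin c (D.sg + D.g 3 + p) e)))
    (hrow : ∀ (p : ℕ) (E' : F.Ω × F.Ω → Prop), D.sg ≤ p → p ≤ D.Pn → D.Pn ≤ J →
      (∀ e, E' e → D.E e ∧ Thk D.h D.L D.Ln (D.M e) ∧ D.Lin c p e) →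
      κ₁ ≤ Pe (P2 (pA F A) (slam F D.w₀)) E' →
      nfr r ((p - D.sg : ℕ) / J) ((D.Pn - D.sg : ℕ) / J) ≤
        C * ((D.G + D.h) / J + ρ + √(((D.h : ℝ) / J + ρ) * ((D.Pn - p : ℕ) / J)))) :
    nfr r b3 P1 * J ≤ 64 * (C + 1) * (Cp + 5) * ((θ + √(θ * u)) * J) := by
  have hCr : (1 : ℝ) ≤ C := by exact_mod_cast hC
  have hl2 : (1 : ℝ) / 2 ≤ Real.log 2 := by
    have := Real.log_two_gt_d9
    linarith
  obtain ⟨T, hT⟩ : ∃ T : ℝ, T = θ * J := ⟨_, rfl⟩
  obtain ⟨a, ha⟩ : ∃ a : ℝ, a = s * J := ⟨_, rfl⟩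
  obtain ⟨V, hV⟩ : ∃ V : ℝ, V = √(θ * u) * J := ⟨_, rfl⟩
  have hT0 : 0 < T := by rw [hT]; positivity
  have ha0 : 0 < a := by rw [ha]; positivity
  have hV0 : 0 ≤ V := by rw [hV]; positivity
  rw [← ha] at w1 w2 w3 w4 j1 a1 m1 hdL k2 l1 gl gu
  rw [← hT] at w1 w2 w3 w4 hdL k2 l1 hΔ
  have hR : (R : ℝ) ≤ u * J := by
    have h1 : (R : ℝ) ≤ D.Ln := by exact_mod_cast r2
    linarith only [h1, e1]
  have ht1 : (t : ℝ) + 1 ≤ T := by
    rw [hT] at w1 ⊢
    linarith only [n1, w1, j1, hCr]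
  -- the square roots
  have s1 : √((D.L : ℝ) - R) ≤ T := by
    rw [Real.sqrt_le_left hT0.le, hT]
    have h1 : (D.L : ℝ) ≤ J := by exact_mod_cast hLJ
    have h2 : (0 : ℝ) ≤ R := Nat.cast_nonneg R
    have h3 : (J : ℝ) ≤ (θ * θ * J) * J := by
      have := mul_le_mul_of_nonneg_right j2 hJ.le
      linarith only [this]
    have h4 : (θ * (J : ℝ)) ^ 2 = (θ * θ * J) * J := by ring
    rw [h4]
    linarith only [h1, h2, h3]
  have s2 : √(((t : ℝ) + 1) * R) ≤ V := by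
    rw [hV]
    have h1 : √(θ * u) * (J : ℝ) = √(θ * u * (J : ℝ) ^ 2) := by
      have h2 : √(θ * u * (J : ℝ) ^ 2) = √(θ * u) * √((J : ℝ) ^ 2) :=
        Real.sqrt_mul (by positivity) _
      rw [h2, Real.sqrt_sq hJ.le]
    rw [h1]
    refine Real.sqrt_le_sqrt ?_
    calc ((t : ℝ) + 1) * R ≤ T * (u * J) :=
          mul_le_mul ht1 hR (Nat.cast_nonneg R) hT0.le
      _ = _ := by rw [hT]; ring
  have s3 : √(θ * (u + 2 * s)) * J ≤ V + T := by
    rw [hV, hT, ← add_mul]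
    refine mul_le_mul_of_nonneg_right ?_ hJ.le
    rw [Real.sqrt_le_left (by positivity)]
    have h1 : √(θ * u) ^ 2 = θ * u := Real.sq_sqrt (by positivity)
    have h2 : 2 * s ≤ θ := by
      have h3 : 224 * (s * J) ≤ θ * J := by rw [← ha, ← hT]; exact w1
      have h4 : 224 * s ≤ θ := le_of_mul_le_mul_right (by linarith only [h3]) hJ
      linarith only [h4, hs]
    have h3 : 0 ≤ √(θ * u) * θ := by positivity
    nlinarith only [h1, h2, h3, hθ]
  -- the rows before the chart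
  have N01 : nfr r b3 ((D.g 3 : ℕ) / J) * J ≤ a := by
    refine nfr_J hl hm hJ ?_ ha0.le
    rw [sub_mul, div_mul_cancel₀ _ hJ.ne']
    linarith only [gu]
  have N12 : nfr r ((D.g 3 : ℕ) / J) ((D.g 3 + R : ℕ) / J) * J ≤
      T / 2 + 2 * (C * (3 * T + V)) := by
    have hCV : 0 ≤ (C : ℝ) * (3 * T + V) := by positivity
    rcases h12 with h1 | h1
    · refine (nfr_J hl hm hJ (x := R) ?_ (Nat.cast_nonneg R)).trans ?_
      · rw [sub_mul, div_mul_cancel₀ _ hJ.ne', div_mul_cancel₀ _ hJ.ne']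
        push_cast
        linarith only
      · have h2 : (R : ℝ) ≤ t := by exact_mod_cast h1.le
        have h3 : θ / 2 * (J : ℝ) = T / 2 := by rw [hT]; ring
        rw [h3] at n1
        linarith only [h2, n1, hCV]
    · have h2 : nfr r ((D.g 3 : ℕ) / J) ((D.g 3 + R : ℕ) / J) * J * Real.log 2 =
          R * Real.log 2 - (r ((D.g 3 + R : ℕ) / J) - r ((D.g 3 : ℕ) / J)) * Real.log 2 * J := by
        unfold nfr
        have h3 : ((D.g 3 + R : ℕ) : ℝ) / J - ((D.g 3 : ℕ) : ℝ) / J = R / J := by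
          push_cast
          ring
        rw [h3]
        field_simp
      have h3 : (C : ℝ) * (ρ * J + √((D.L : ℝ) - R) + √(((t : ℝ) + 1) * R) + (t + 1)) ≤
          C * (3 * T + V) := by
        refine mul_le_mul_of_nonneg_left ?_ (by positivity)
        have h4 : 2 * (ρ * J) ≤ T := by
          rw [hT]
          have := mul_le_mul_of_nonneg_right hρ hJ.le
          linarith only [this]
        linarith only [h4, s1, s2, ht1, hT0]
      have h4 : nfr r ((D.g 3 : ℕ) / J) ((D.g 3 + R : ℕ) / J) * J * Real.log 2 ≤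
          C * (3 * T + V) := by
        rw [h2]
        linarith only [h1, h3]
      have h5 : 0 ≤ nfr r ((D.g 3 : ℕ) / J) ((D.g 3 + R : ℕ) / J) * J := by
        refine mul_nonneg (nfr_nonneg hl ?_) hJ.le
        refine div_le_div_of_nonneg_right ?_ hJ.le
        exact_mod_cast Nat.le_add_right _ _
      nlinarith only [h4, h5, hl2, hT0]
  -- the last rows
  have hx1 : 0 ≤ (C : ℝ) * T := by positivity
  have hx2 : 0 ≤ Cp * T := by positivity
  have hx3 : 0 ≤ (C : ℝ) * (Cp * T) := by positivity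
  have hx4 : 0 ≤ (C : ℝ) * V := by positivity
  have hx5 : 0 ≤ Cp * V := by positivity
  have hx6 : 0 ≤ (C : ℝ) * (Cp * V) := by positivity
  have hCaT : (C : ℝ) * (2 * a) ≤ T := by linarith only [w2, mul_nonneg (show (0 : ℝ) ≤ C by linarith only [hCr]) ha0.le]
  have N23 : nfr r ((D.g 3 + R : ℕ) / J) P1 * J ≤
      6 * T + 4 * (Cp * T) + 4 * (C * (Cp * T)) + 4 * (C * T) + 2 * (C * V) := by
    rcases hcase with h1 | ⟨p, h1, h2⟩
    · refine nfr_J hl hm hJ ?_ (by positivity)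
      rw [sub_mul, div_mul_cancel₀ _ hJ.ne']
      have h3 : (D.Ln : ℝ) ≤ R + X + C * (D.h + 1) := by exact_mod_cast h1
      have h4 : P1 * (J : ℝ) = b3 * J + u * J := by rw [hu]; ring
      have h5 : Cp * s * (J : ℝ) = Cp * a := by rw [ha]; ring
      push_cast
      linarith only [h3, h4, h5, gl, e2, m1, hΔ, w1, w3, j1, hCr, hx1, hx2, hx3, hx4, hT0, ha0]
    · have h3 : (p : ℝ) - R ≤ (D.d - D.L) + t + X + C * (D.h + 1) := by
        have : (p : ℝ) + D.L ≤ R + D.d + t + X + C * (D.h + 1) := by exact_mod_cast h1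
        linarith only [this]
      have h3' : (p : ℝ) - R ≤ 2 * T + Cp * T + Cp * (2 * a) + 1 := by
        linarith only [h3, hdL, ht1, m1, hΔ, w1, ha0, hT0]
      rcases le_or_gt (D.sg + D.g 3 + p) D.Pn with h4 | h4
      · have n23 : nfr r ((D.g 3 + R : ℕ) / J) ((D.sg + D.g 3 + p - D.sg : ℕ) / J) * J ≤
            2 * T + Cp * T + Cp * (2 * a) + 1 := by
          refine nfr_J hl hm hJ ?_ (by positivity)
          rw [sub_mul, div_mul_cancel₀ _ hJ.ne', div_mul_cancel₀ _ hJ.ne']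
          have h6 : D.sg + D.g 3 + p - D.sg = D.g 3 + p := by omega
          rw [h6]
          push_cast
          linarith only [h3']
        have n34 : nfr r ((D.sg + D.g 3 + p - D.sg : ℕ) / J) ((D.Pn - D.sg : ℕ) / J) * J ≤
            C * (Cp * (a + T) + Cp * a + T + (V + T)) := by
          have h5 := hrow (D.sg + D.g 3 + p) _ (by omega) h4 hPnJ (fun e he => he) h2
          have h6 := mul_le_mul_of_nonneg_right h5 hJ.le
          refine h6.trans ?_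
          rw [mul_assoc]
          refine mul_le_mul_of_nonneg_left ?_ (by positivity)
          have h7 : ((D.G + D.h : ℝ) / J + ρ +
              √(((D.h : ℝ) / J + ρ) * ((D.Pn - (D.sg + D.g 3 + p) : ℕ) / J))) * J =
              (D.G + D.h) + ρ * J +
              √(((D.h : ℝ) / J + ρ) * ((D.Pn - (D.sg + D.g 3 + p) : ℕ) / J)) * J := by
            rw [add_mul, add_mul, div_mul_cancel₀ _ hJ.ne']
          rw [h7]
          have h8 : √(((D.h : ℝ) / J + ρ) * ((D.Pn - (D.sg + D.g 3 + p) : ℕ) / J)) * J ≤ V + T := by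
            refine le_trans (mul_le_mul_of_nonneg_right (Real.sqrt_le_sqrt ?_) hJ.le) s3
            refine mul_le_mul hh ?_ (by positivity) hθ.le
            rw [div_le_iff₀ hJ, Nat.cast_sub h4]
            push_cast
            have h9 : P1 * (J : ℝ) = b3 * J + u * J := by rw [hu]; ring
            have h10 : (u + 2 * s) * (J : ℝ) = u * J + 2 * a := by rw [ha]; ring
            rw [h10]
            have h11 : (0 : ℝ) ≤ p := Nat.cast_nonneg p
            linarith only [k1, gl, h9, h11, j1, hCr]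
          have h9 : ρ * (J : ℝ) ≤ T := by
            rw [hT]
            refine mul_le_mul_of_nonneg_right ?_ hJ.le
            linarith only [hρ, hρ0]
          linarith only [h8, h9, l1, a1]
        have n4 : nfr r ((D.Pn - D.sg : ℕ) / J) P1 * J ≤ Cp * a + Cp * T + 1 := by
          refine nfr_J hl hm hJ ?_ (by positivity)
          rw [sub_mul, div_mul_cancel₀ _ hJ.ne', Nat.cast_sub (by omega)]
          linarith only [k2]
        have h5 : nfr r ((D.g 3 + R : ℕ) / J) P1 =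
            nfr r ((D.g 3 + R : ℕ) / J) ((D.sg + D.g 3 + p - D.sg : ℕ) / J) +
            nfr r ((D.sg + D.g 3 + p - D.sg : ℕ) / J) ((D.Pn - D.sg : ℕ) / J) +
            nfr r ((D.Pn - D.sg : ℕ) / J) P1 := by
          rw [nfr_add, nfr_add]
        rw [h5, add_mul, add_mul]
        linarith only [n23, n34, n4, w4, w3, w1, hx1, hx2, hx3, hx4, hT0, ha0, j1, hCr, hV0]
      · refine nfr_J hl hm hJ ?_ (by positivity)
        rw [sub_mul, div_mul_cancel₀ _ hJ.ne']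
        have h6 : (D.Pn : ℝ) ≤ D.sg + D.g 3 + p := by exact_mod_cast h4.le
        push_cast
        linarith only [h6, h3', k2, w3, w1, hx1, hx2, hx3, hx4, hT0, ha0, j1, hCr]
  have hsum : nfr r b3 P1 = nfr r b3 ((D.g 3 : ℕ) / J) +
      nfr r ((D.g 3 : ℕ) / J) ((D.g 3 + R : ℕ) / J) + nfr r ((D.g 3 + R : ℕ) / J) P1 := by
    rw [nfr_add, nfr_add]
  have hfin : 64 * ((C : ℝ) + 1) * (Cp + 5) * ((θ + √(θ * u)) * J) =
      64 * (C * (Cp * T)) + 320 * (C * T) + 64 * (Cp * T) + 320 * T +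
      64 * (C * (Cp * V)) + 320 * (C * V) + 64 * (Cp * V) + 320 * V := by
    rw [hT, hV]
    ring
  rw [hfin, hsum, add_mul, add_mul]
  linarith only [N01, N12, N23, hx1, hx2, hx3, hx4, hx5, hx6, hT0, hV0, ha0, w1]

/-- **The assembly for two windows.** -/
theorem asm {S : PCl m} (hne : S.Ne) (hpos : Bas S (fun _ F A => 0 < Pe F.p A)) {c : ℕ → Fin m}
    {β : ℕ → ℝ} {r : ℝ → ℝ} {w₀ w₁ y P1 sg mv cc b Cp : ℝ} {C : ℕ} (hl : LipschitzWith 1 r)
    (hm : Monotone r) (hCp : 2 ≤ Cp) (hC : 1 ≤ C)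
    (hP : PlnMS S c β w₀ w₁ y P1 sg mv cc (1 / (100 * ((C : ℝ) + 10))) Cp) (h1 : DetS S c r w₀ w₁ b C)
    (h2 : HypS S c w₀ (β 3) C) (h3 : TubRS S c r w₀ w₁ b C) (h4 : CasM m C) (h5 : SixM m)
    (hb : ∑ i ∈ range 3, (1 - β i) - mv - y ≤ b) (hy : 0 ≤ y) (hsg : 0 ≤ sg) (hPs : P1 + sg ≤ 1)
    (hcc : cc ≤ P1 + sg) (hP1 : β 3 ≤ P1) {s θ : ℝ} (hs : 0 < s)
    (hθs : 16 * (C + 1) * (2 * Cp + 5) * s ≤ θ) (hys : Cp * y ≤ s) (hmv : Cp * (s + θ) ≤ mv)
    (hc : Cp * (s + θ) ≤ cc) :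
    nfr r (β 3) P1 ≤ 64 * (C + 1) * (2 * Cp + 5) * (θ + √(θ * (P1 - β 3))) := by
  classical
  obtain ⟨Cq, hCq⟩ : ∃ Cq : ℝ, Cq = 2 * Cp := ⟨_, rfl⟩
  rw [← hCq] at hθs ⊢
  have hCq2 : 2 ≤ Cq := by linarith
  have hCr : (1 : ℝ) ≤ C := by exact_mod_cast hC
  have hCp0 : 0 ≤ Cp := by linarith
  obtain ⟨hθ1, hθC, hθCp, hθCC, hρ1⟩ := asm_num hCr hCq2 hs hθs
  have hθ0 : 0 < θ := by linarith
  obtain ⟨u, hu⟩ : ∃ u : ℝ, u = P1 - β 3 := ⟨_, rfl⟩
  have hu0 : 0 ≤ u := by rw [hu]; linarith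
  rw [← hu]
  have hsq0 : 0 ≤ √(θ * u) := Real.sqrt_nonneg _
  have hCps : 0 ≤ Cp * s := by positivity
  have hCpθ : 0 ≤ Cp * θ := by positivity
  have hBB : θ ≤ 64 * (C + 1) * (Cq + 5) * (θ + √(θ * u)) := by
    have e1 : (1 : ℝ) ≤ 64 * (C + 1) * (Cq + 5) := by nlinarith
    have e2 : 0 ≤ θ + √(θ * u) := by positivity
    nlinarith
  -- the trivial case
  rcases le_or_gt u (Cp * s) with hus | hus
  · refine le_trans ?_ hBB
    refine nfr_le hl hm ?_ hθ0.le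
    rw [← hu]
    rw [hCq] at hθCp
    linarith
  by_contra hcon
  push Not at hcon
  -- the masses
  obtain ⟨η, hη⟩ : ∃ η : ℝ, η = 1 / (100 * ((C : ℝ) + 10)) := ⟨_, rfl⟩
  have hη0 : 0 < η := by rw [hη]; positivity
  have hηC : (C : ℝ) * (η + η) + 10 * (η + η) = 1 / 50 := by
    rw [hη]
    field_simp
    ring
  have hη1 : η < 1 / 2 := by
    rw [hη, div_lt_div_iff₀ (by positivity) (by norm_num)]
    linarith
  obtain ⟨Nl, hNl⟩ : ∃ Nl : ℕ, Nl = ⌈2 / s⌉₊ + 1 := ⟨_, rfl⟩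
  obtain ⟨κ₁, hκ₁, hcas⟩ := h4 η Nl hη0 (by linarith)
  rw [← hη] at hP
  obtain ⟨K, n₀, hK, κ₀, hκ₀, hPl⟩ := hP s θ hs hθ0 hys hmv hc
  obtain ⟨ρ, hρ⟩ : ∃ ρ : ℝ, ρ = (Cq + 5) * s := ⟨_, rfl⟩
  have hρ0 : 0 < ρ := by rw [hρ]; positivity
  rw [← hρ] at hρ1
  have hbig := bas_big ((h1 (1 / 10) ρ (by norm_num) hρ0).and ((h2 (1 / 10) s (by norm_num) hs).and
    ((h3 K n₀ hK κ₁ ρ hκ₁ hρ0).and hpos))) hκ₀
  obtain ⟨J₁, hJ₁⟩ := exists_nat_ge (100 * ((C : ℝ) + 1) / s + 1 / (θ * θ) + 1)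
  refine bas_no hne ((hPl.and (hbig.and hpos)).mono J₁ ?_)
  rintro J hJ F A ⟨⟨A', g, V₀, V₁, P, z₀, z₀', z₁, z₁', lf, br, a, bb, χ, M, E, g1, g2, g3, g4, H⟩,
    hB, hAp⟩
  obtain ⟨hB1, hB2, hB3, hAp'⟩ := hB A' g1 g2
  clear hbig hPl hB h1 h2 h3 h4 hP
  have hJ' : (J₁ : ℝ) ≤ J := by exact_mod_cast hJ
  have hJb := hJ₁.trans hJ'
  have q1 : 0 ≤ 100 * ((C : ℝ) + 1) / s := by positivity
  have q2 : 0 ≤ 1 / (θ * θ) := by positivity
  have hJ1 : (1 : ℝ) ≤ J := by linarith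
  have hJ0 : (0 : ℝ) < J := by linarith
  have j1 : 100 * ((C : ℝ) + 1) ≤ s * J := by
    have e1 : 100 * ((C : ℝ) + 1) / s ≤ J := by linarith
    rw [div_le_iff₀ hs] at e1
    linarith
  have j2 : 1 ≤ θ * θ * J := by
    have e1 : 1 / (θ * θ) ≤ J := by linarith
    rw [div_le_iff₀ (by positivity)] at e1
    linarith
  clear q1 q2 hJb hJ' hJ₁ hJ
  -- the data
  obtain ⟨D, hD⟩ : ∃ D : PDat F K n₀, D = ⟨V₀, V₁, ⌊w₀ * J⌋₊, ⌊w₁ * J⌋₊, ⌊2 * Cp * s * J⌋₊, ⌊θ * J⌋₊,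
    ⌊(mv + Cp * (s + θ)) * J⌋₊, ⌊(mv - Cp * s) * J⌋₊, ⌊(P1 - β 3 - Cp * s) * J⌋₊, ⌊sg * J⌋₊,
    ⌊(P1 + sg - Cp * (s + θ)) * J⌋₊, ⌊Cp * (s + θ) * J⌋₊, η, g, P, z₀, z₀', z₁, z₁', lf, br, a, bb,
    χ, M, E⟩ := ⟨_, rfl⟩
  have hOk : D.Ok hK A' c := by rw [hD]; exact H
  have dw₀ : D.w₀ = ⌊w₀ * J⌋₊ := by rw [hD]
  have dw₁ : D.w₁ = ⌊w₁ * J⌋₊ := by rw [hD]
  have dη : D.η = η := by rw [hD]
  have dg : D.g = g := by rw [hD]
  obtain ⟨a1, a2⟩ := nat_fl' (x := 2 * Cp * s) (by positivity) J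
  obtain ⟨b1, b2⟩ := nat_fl' (x := θ) hθ0.le J
  obtain ⟨c1, c2⟩ := nat_fl' (x := mv + Cp * (s + θ)) (by nlinarith) J
  obtain ⟨d1, d2⟩ := nat_fl' (x := mv - Cp * s) (by nlinarith) J
  obtain ⟨e1, e2⟩ := nat_fl' (x := P1 - β 3 - Cp * s) (by rw [← hu]; linarith) J
  obtain ⟨f1, f2⟩ := nat_fl' (x := sg) hsg J
  obtain ⟨k1, k2⟩ := nat_fl' (x := P1 + sg - Cp * (s + θ)) (by linarith) J
  obtain ⟨l1, l2⟩ := nat_fl' (x := Cp * (s + θ)) (by positivity) J
  have dh : D.h = ⌊2 * Cp * s * J⌋₊ := by rw [hD]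
  have dθ : D.θ = ⌊θ * J⌋₊ := by rw [hD]
  have dd : D.d = ⌊(mv + Cp * (s + θ)) * J⌋₊ := by rw [hD]
  have dL : D.L = ⌊(mv - Cp * s) * J⌋₊ := by rw [hD]
  have dLn : D.Ln = ⌊(P1 - β 3 - Cp * s) * J⌋₊ := by rw [hD]
  have dsg : D.sg = ⌊sg * J⌋₊ := by rw [hD]
  have dPn : D.Pn = ⌊(P1 + sg - Cp * (s + θ)) * J⌋₊ := by rw [hD]
  have dG : D.G = ⌊Cp * (s + θ) * J⌋₊ := by rw [hD]
  clear hD H
  rw [← dh] at a1 a2
  rw [← dθ] at b1 b2
  rw [← dd] at c1 c2 g4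
  rw [← dL] at d1 d2
  rw [← dLn] at e1 e2
  rw [← dsg] at f1 f2
  rw [← dPn] at k1 k2
  rw [← dG] at l1 l2
  rw [← dg] at g3 g4
  exact by
   -- the mesh
   obtain ⟨X, hX⟩ : ∃ X : ℕ, X = ⌊s * J⌋₊ := ⟨_, rfl⟩
   obtain ⟨t, ht⟩ : ∃ t : ℕ, t = ⌊θ / 2 * J⌋₊ := ⟨_, rfl⟩
   obtain ⟨m1, m2⟩ := nat_fl' hs.le J
   obtain ⟨n1, n2⟩ := nat_fl' (x := θ / 2) (by positivity) J
   rw [← hX] at m1 m2
   rw [← ht] at n1 n2
   -- products with J
   have w1 : 224 * (s * J) ≤ θ * J := by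
     have := mul_le_mul_of_nonneg_right hθ1 hJ0.le
     linarith only [this]
   have w2 : (C : ℝ) * (s * J) * 16 ≤ θ * J := by
     have := mul_le_mul_of_nonneg_right hθC hJ0.le
     linarith only [this]
   have w3 : Cq * (s * J) * 32 ≤ θ * J := by
     have := mul_le_mul_of_nonneg_right hθCp hJ0.le
     linarith only [this]
   have w4 : (C : ℝ) * (Cq * (s * J)) * 16 ≤ θ * J := by
     have := mul_le_mul_of_nonneg_right hθCC hJ0.le
     linarith only [this]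
   have w0 : (D.h : ℝ) ≤ Cq * (s * J) := by
     rw [hCq]
     linarith only [a1]
   have wp : 0 ≤ Cp * s * (J : ℝ) := mul_nonneg hCps hJ0.le
   have wq : 0 ≤ Cp * θ * (J : ℝ) := mul_nonneg hCpθ hJ0.le
   obtain ⟨hΔ, hi1⟩ := asm_num2 (C := C) (Cp := Cq) (a := s * J) (T := θ * J) (h := D.h) (t := t)
     (X := X) (θn := D.θ) hCr w1 w4 w0 j1 (by linarith only [n1]) m1 b2
   have i1 : t + X + C * (D.h + 1) ≤ D.θ := by
     have h6 : ((t + X + C * (D.h + 1) : ℕ) : ℝ) < ((D.θ + 1 : ℕ) : ℝ) := by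
       push_cast
       exact hi1
     exact Nat.lt_succ_iff.1 (by exact_mod_cast h6)
   have hLJ : D.L ≤ J := by
     have := g4 0 (by norm_num)
     have i3' : D.L ≤ D.d := by
       rw [dL, dd]
       refine Nat.floor_le_floor (mul_le_mul_of_nonneg_right ?_ hJ0.le)
       linarith only [mul_nonneg hCp0 hs.le, mul_nonneg hCp0 hθ0.le]
     omega
   have i2 : D.L < Nl * X := by
     have h6 : (D.L : ℝ) ≤ J := by exact_mod_cast hLJ
     have h9 : s * J / 2 ≤ X := by linarith only [m2, j1, hCr]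
     have h7 : (J : ℝ) + X ≤ Nl * X := by
       have h8 : 2 / s + 1 ≤ Nl := by
         rw [hNl]
         push_cast
         linarith only [Nat.le_ceil (2 / s)]
       calc (J : ℝ) + X = 2 / s * (s * J / 2) + X := by field_simp
         _ ≤ 2 / s * X + X := by
           have := mul_le_mul_of_nonneg_left h9 (show 0 ≤ 2 / s by positivity)
           linarith only [this]
         _ = (2 / s + 1) * X := by ring
         _ ≤ _ := mul_le_mul_of_nonneg_right h8 (Nat.cast_nonneg X)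
     have h10 : (0 : ℝ) < X := by linarith only [h9, j1, hCr]
     exact_mod_cast (by linarith only [h6, h7, h10] : (D.L : ℝ) < Nl * X)
   have i3 : D.L ≤ D.d := by
     rw [dL, dd]
     refine Nat.floor_le_floor (mul_le_mul_of_nonneg_right ?_ hJ0.le)
     linarith only [mul_nonneg hCp0 hs.le, mul_nonneg hCp0 hθ0.le]
   have i4 : 1 ≤ X := by
     have : (1 : ℝ) ≤ X := by linarith only [m2, j1, hCr]
     exact_mod_cast this
   have i10 : t + X + C * (D.h + 1) ≤ D.L := by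
     have h8 : ((t + X + C * (D.h + 1) : ℕ) : ℝ) ≤ D.L := by
       push_cast
       have h9 := mul_le_mul_of_nonneg_right hmv hJ0.le
       have h10 : 2 * (θ * J) ≤ Cp * (θ * J) := mul_le_mul_of_nonneg_right hCp (by positivity)
       linarith only [h9, h10, d2, n1, m1, hΔ, w1, j1, hCr]
     exact_mod_cast h8
   obtain ⟨R, r1, r2, r3, r4⟩ := hcas F A' c K n₀ hK D hOk hAp' (by rw [dη]; exact hη1) X t i4 i2 i3
     i1 i10
   have r3' : R = 0 ∨
       1 - 10 * (η + η) ≤ Pe (PC (pA F A') (slam F D.w₀) (ptr F J)) (fun e => D.Six R e) := by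
     rcases r3 with h6 | h6
     · exact Or.inl h6
     · exact Or.inr (h5 F A' K n₀ D R (η + η) hAp' (by rw [dη] at h6; linarith only [h6]))
   -- natural numbers
   obtain ⟨gl, gu⟩ := abs_le.1 (g3 3 (by norm_num))
   exact by
    have i5 : D.g 3 + R ≤ J := by
      have h6 : (R : ℝ) ≤ D.Ln := by exact_mod_cast r2
      have h7 : ((D.g 3 + R : ℕ) : ℝ) ≤ J := by
        push_cast
        have h8 : (P1 - Cp * s + s) * (J : ℝ) ≤ 1 * J := by
          refine mul_le_mul_of_nonneg_right ?_ hJ0.le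
          nlinarith only [hPs, hsg, hCp, hs]
        linarith only [h8, h6, gu, e1]
      exact_mod_cast h7
    have i6 : ∑ i ∈ range 3, ((J : ℝ) - D.g i) - D.L ≤ (b + ρ) * J := by
      have h6 : ∑ i ∈ range 3, ((J : ℝ) - D.g i) ≤ (∑ i ∈ range 3, (1 - β i)) * J + 3 * (s * J) := by
        rw [Finset.sum_mul]
        have h7 : ∑ i ∈ range 3, ((J : ℝ) - D.g i) ≤ ∑ i ∈ range 3, ((1 - β i) * J + s * J) := by
          refine Finset.sum_le_sum fun i hi => ?_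
          have := (abs_le.1 (g3 i (by have := mem_range.1 hi; omega))).1
          linarith only [this]
        rw [Finset.sum_add_distrib, Finset.sum_const, card_range, nsmul_eq_mul] at h7
        push_cast at h7
        exact h7
      have h7 := mul_le_mul_of_nonneg_right hb hJ0.le
      have h8 : y * J ≤ s * J := by
        refine mul_le_mul_of_nonneg_right ?_ hJ0.le
        nlinarith only [hys, hy, hCp, hs]
      rw [hρ, hCq]
      linarith only [h6, h7, h8, d2, j1, hCr, wp]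
    have i7 : D.h ≤ t := by
      have : (D.h : ℝ) ≤ t := by linarith only [w0, w3, n2, j1, hCr, w1]
      exact_mod_cast this
    have i8 : ∀ i < 3, D.g i + D.L ≤ J := fun i hi => (Nat.add_le_add_left i3 _).trans (g4 i hi)
    have hPnJ : D.Pn ≤ J := by
      have : (D.Pn : ℝ) ≤ J := by
        have h8 : (P1 + sg - Cp * (s + θ)) * (J : ℝ) ≤ 1 * J := by
          refine mul_le_mul_of_nonneg_right ?_ hJ0.le
          linarith only [hPs, mul_nonneg hCp0 (add_pos hs hθ0).le]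
        linarith only [h8, k1]
      exact_mod_cast this
    exact by
     -- the determinants
     have key : (R < t ∨ (R : ℝ) * Real.log 2 ≤
         (r ((D.g 3 + R : ℕ) / J) - r ((D.g 3 : ℕ) / J)) * Real.log 2 * J +
         C * (ρ * J + √((D.L : ℝ) - R) + √(((t : ℝ) + 1) * R) + (t + 1))) ∧
         (D.Ln ≤ R + X + C * (D.h + 1) ∨
          (∃ p : ℕ, p + D.L ≤ R + D.d + t + X + C * (D.h + 1) ∧
            κ₁ ≤ Pe (P2 (pA F A') (slam F D.w₀)) (fun e => D.E e ∧ Thk D.h D.L D.Ln (D.M e) ∧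
            D.Lin c (D.sg + D.g 3 + p) e))) := by
       have ht0 : 0 < t := by
         have : (0 : ℝ) < t := by linarith only [n2, w1, j1, hCr]
         exact_mod_cast this
       rcases lt_or_ge R t with hRt | hRt
       · refine ⟨Or.inl hRt, ?_⟩
         rcases r4 with h6 | h6 | ⟨h6, -⟩
         · exact Or.inl h6
         · exact Or.inr h6
         · exfalso
           have h7 : (D.L : ℝ) ≤ t + X + C * (D.h + 1) := by
             have h8 : D.L ≤ t + X + C * (D.h + 1) := by omega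
             exact_mod_cast h8
           have h9 := mul_le_mul_of_nonneg_right hmv hJ0.le
           have h10 : 2 * (θ * J) ≤ Cp * (θ * J) := mul_le_mul_of_nonneg_right hCp (by positivity)
           linarith only [h7, h9, h10, d2, n1, m1, hΔ, w1, j1, hCr]
       · have r3' := r3'.resolve_left (by omega)
         have hH := hB2 K n₀ hK D hOk dw₀ R t r1 r2 hRt i5 (by
           linarith only [gl, n2, hΔ, w1, j1, hCr])
         constructor
         · right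
           by_contra hlt
           push Not at hlt
           have hDt := hB1 K n₀ hK D hOk dw₀ dw₁ R t r1 r2 i7 i8 i5 i6 hlt
           have h6 := two_ev _ _ hH hDt
           linarith only [h6, r3', hηC, hη0, mul_pos (show (0 : ℝ) < C by linarith only [hCr]) hη0]
         · rcases r4 with h6 | h6 | ⟨-, h6⟩
           · exact Or.inl h6
           · exact Or.inr h6
           · exfalso
             rw [dη] at h6
             have h7 := two_ev _ _ hH h6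
             linarith only [h7, r3', hηC, hη0]
     obtain ⟨key1, key2⟩ := key
     have hfin := asm_out hl hm (F := F) (A := A') (c := c) (D := D) (Cp := Cq) (s := s) (θ := θ)
       (u := u) (P1 := P1) (b3 := β 3) (κ₁ := κ₁) (ρ := ρ) (X := X) (t := t) (R := R) hJ0 hC hCq2 hs
       hθ0 hu hu0 hρ0 hρ1 w1 w2 w3 w4 j1 j2 w0 (by
         have h6 : (D.h : ℝ) / J ≤ Cq * s := by
           rw [div_le_iff₀ hJ0]
           linarith only [w0]
         linarith only [h6, hρ1, hθCp, hθ0]) m1 n1 (by rw [hu]; linarith only [e1, wp])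
       (by rw [hu, hCq]; linarith only [e2, wp])
       (by rw [hCq]; linarith only [c1, d2, wp, wq]) (by rw [hCq]; linarith only [k2, f1, wp, wq])
       (by linarith only [k1, f2, wp, wq]) (by rw [hCq]; linarith only [l1, wp, wq])
       (by linarith only [gl]) (by linarith only [gu]) r1 r2 hLJ hΔ hPnJ key1 key2
       (fun p E' p1 p2 p3 p4 p5 => hB3 D hOk dw₀ dw₁ i3 g4 i6 p E' p1 p2 p3 p4 p5)
     rw [← mul_assoc] at hfin
     exact absurd (le_of_mul_le_mul_right hfin hJ0) (not_le.2 hcon)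

end Pool.PM
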