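import Pool.Agent.H22.M.Stm
import Pool.Agent.H1.PLN.Stm

/-!
# Plan M: the falling level has no atom

`VPl`: the part of `PlnM` on the level `v`: affine chart of the coordinates `c 0, c 1, c 2` at the
window `w₀`, affine sheets of `v` at the window `w₁`. `VPlS`: the same in a class.
`AtvS`: if the coordinates `c 0, c 1` are exact at a window `w₂ ≥ w₁` and the labels at another time
are few bits given the exact point, the fall of `v` between `w₀` and `w₁` is small.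
-/

set_option autoImplicit false

namespace Pool.PM

open Finset Real MvPolynomial
open Pool.Agent.H49.Ent Pool.Agent.H32.Dense Pool.STK Pool.KA Pool.KSAT Pool.K2S Pool.PB
  Pool.STAT Pool.GEN Pool.M3F Pool.KM7 Pool.S6C Pool.JPN

variable {m J : ℕ}

/-- **One member**, the level `v`. -/
structure VPl (F : Fam m J) (A : F.Ω → Prop) (c : ℕ → Fin m) (w₀ w₁ h L : ℕ) (η : ℝ) (g : ℕ → ℕ)
    {V₀ V₁ : Type} (P : V₀ → ℕ → PN) (z₀ : PtT F → V₀) (z₀' : LnT F → V₀) (z₁ : PtT F → V₁)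
    (z₁' : LnT F → V₁) (lf : V₁ → V₀ → Fin 4 → ℝ) (E : F.Ω × F.Ω → Prop) : Prop where
  tri : ∀ v, TriN (P v)
  aff : ∀ v, ∀ i ≤ 3, (P v i).totalDegree ≤ 1
  cls₀ : ∀ ω, A ω → z₀ (ptr F J ω) = z₀' (slam F w₀ ω)
  cls₁ : ∀ ω, A ω → z₁ (ptr F J ω) = z₁' (slam F w₁ ω)
  pos : ∀ ω, A ω → ∀ i < 3, |ntc F c P z₀ ω i| ≤ 1 / 2 ^ g i
  mass : 1 - η ≤ Pe (P2 (Pool.Agent.H49.Ent.cond F.p A True) (slam F w₀)) E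
  own₀ : ∀ e, E e → |nx F c P z₀ g e.1 2 -
    lfv F c P z₀ g w₀ (lf (z₁ (ptr F J e.1)) (z₀ (ptr F J e.1))) e.1| ≤ 1 / 2 ^ L
  onl₀ : ∀ e, E e → |nx F c P z₀ g e.1 2 -
    lfv F c P z₀ g w₀ (lf (z₁ (ptr F J e.2)) (z₀ (ptr F J e.1))) e.1| ≤ 1 / 2 ^ L
  siz : ∀ e, E e → ∀ i : Fin 4, |lf (z₁ (ptr F J e.1)) (z₀ (ptr F J e.1)) i| ≤ 2 ^ h ∧
    |lf (z₁ (ptr F J e.2)) (z₀ (ptr F J e.1)) i| ≤ 2 ^ h
  fal : ∀ e, E e → 1 / 2 ^ h ≤ |lf (z₁ (ptr F J e.1)) (z₀ (ptr F J e.1)) 3 -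
    lf (z₁ (ptr F J e.2)) (z₀ (ptr F J e.1)) 3|

/-- **The same in a class.** -/
def VPlS (S : PCl m) (c : ℕ → Fin m) (β : ℕ → ℝ) (w₀ w₁ y mv η C : ℝ) : Prop :=
  ∀ s : ℝ, 0 < s → C * y ≤ s → C * s ≤ mv →
    ∃ κ : ℝ, 0 < κ ∧ Bas S (fun J F A => ∃ (A' : F.Ω → Prop) (g : ℕ → ℕ) (V₀ V₁ : Type)
      (P : V₀ → ℕ → PN) (z₀ : PtT F → V₀) (z₀' : LnT F → V₀) (z₁ : PtT F → V₁)
      (z₁' : LnT F → V₁) (lf : V₁ → V₀ → Fin 4 → ℝ) (E : F.Ω × F.Ω → Prop),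
      Sub A' A ∧ κ * Pe F.p A ≤ Pe F.p A' ∧ (∀ i < 3, |(g i : ℝ) - β i * J| ≤ s * J) ∧
      (∀ i < 3, g i + ⌊(mv - C * s) * J⌋₊ ≤ J) ∧
      VPl F A' c ⌊w₀ * J⌋₊ ⌊w₁ * J⌋₊ ⌊2 * C * s * J⌋₊ ⌊(mv - C * s) * J⌋₊ η g P z₀ z₀' z₁ z₁' lf E)

/-- **The level `v` has no atom.** The window `w₂` and the error `ρ` are fixed before the windows
`w₀, w₁`. -/
def AtvS (S : PCl m) (c : ℕ → Fin m) : Prop :=
  ∀ w₂ b ρ : ℝ, 0 < w₂ → w₂ ≤ 1 → 0 < ρ →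
    ExvY S w₂ (fun J F ω (i : Fin 2) => F.X J ω (c i)) b → ∃ e₀ : ℝ, 0 < e₀ ∧
    ∀ (w₀ w₁ e y mv C s : ℝ) (β : ℕ → ℝ), 0 ≤ w₀ → w₀ ≤ w₁ → w₁ ≤ w₂ → e ≤ e₀ →
      Pool.PLN.H2S S w₀ w₁ e → VPlS S c β w₀ w₁ y mv (1 / 4) C → 1 ≤ C → 0 < s → C * y ≤ s →
      C * s ≤ mv → mv ≤ ∑ i ∈ range 2, (1 - β i) - b + 6 * C * s + ρ

end Pool.PM
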