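import Pool.Agent.H22.M.Asm
import Pool.Agent.H93.GEN.TopW

/-!
# Plan M: the dichotomy

`RowM r B κ₀ Cp pa P1 y mv cc`: the conclusion of the assembly for two windows, for all errors.
`r1m_of`: **the last rows, from any number of rows** (`R1M`), from the statement for one falling
level (`R1T`) and from the statement for two falling levels (`RowM`).
-/

set_option autoImplicit false

namespace Pool.PM

open Set Pool.STR

/-- The rows for two windows and two falling levels. -/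
def RowM (r : ℝ → ℝ) (B κ₀ Cp pa P1 y mv cc : ℝ) : Prop :=
  ∀ s θ : ℝ, 0 < s → κ₀ * s ≤ θ → Cp * y ≤ s → Cp * (s + θ) ≤ mv → Cp * (s + θ) ≤ cc →
    nfr r pa P1 ≤ B * (θ + √(θ * (P1 - pa)))

/-- The row with a given measure of nonfull rows above it. -/
theorem nfr_row {r : ℝ → ℝ} (hl : LipschitzWith 1 r) {u v t : ℝ} (h : u ≤ v) (ht : 0 ≤ t)
    (ht' : t ≤ nfr r u v) : ∃ w, u ≤ w ∧ w ≤ v ∧ nfr r w v = t := by
  have hc : ContinuousOn (fun w => nfr r w v) (Set.Icc u v) := by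
    refine Continuous.continuousOn ?_
    have h1 := hl.continuous
    unfold nfr
    fun_prop
  have h2 := intermediate_value_Icc' h hc
  have h3 : t ∈ Set.Icc (nfr r v v) (nfr r u v) := by
    refine ⟨?_, ht'⟩
    have : nfr r v v = 0 := by
      unfold nfr
      ring
    rw [this]
    exact ht
  obtain ⟨w, hw, h4⟩ := h2 h3
  exact ⟨w, hw.1, hw.2, h4⟩

/-- The constants of the dichotomy. -/
theorem dich_num {ε δD B κ₀ Cp : ℝ} (hε : 0 < ε) (hε1 : ε ≤ 1) (hδ : 0 < δD) (hB : 0 ≤ B)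
    (hκ : 1 ≤ κ₀) (hCp : 1 ≤ Cp) : ∃ c₁ c₂ δ : ℝ, 0 < c₁ ∧ 0 < c₂ ∧ 0 < δ ∧ κ₀ * c₂ ≤ c₁ ∧
      Cp * δ ≤ c₂ ∧ Cp * (c₂ + c₁) ≤ δD / 2 ∧ Cp * (c₂ + c₁) ≤ ε / 32 ∧ 4 * δ ≤ δD ∧
      B * (c₁ + √c₁) ≤ ε / 2 := by
  obtain ⟨q, hq⟩ : ∃ q : ℝ, q = ε / (4 * (B + 1)) := ⟨_, rfl⟩
  have hq0 : 0 < q := by rw [hq]; positivity
  have hq1 : q ≤ 1 := by
    rw [hq, div_le_one (by positivity)]
    linarith
  obtain ⟨c₁, hc₁⟩ : ∃ c₁ : ℝ, c₁ = min (q * q) (min (δD / (4 * Cp)) (ε / (64 * Cp))) := ⟨_, rfl⟩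
  have c0 : 0 < c₁ := by
    rw [hc₁]
    exact lt_min (by positivity) (lt_min (by positivity) (by positivity))
  have c1 : c₁ ≤ q * q := by rw [hc₁]; exact min_le_left _ _
  have c2 : c₁ ≤ δD / (4 * Cp) := by
    rw [hc₁]
    exact (min_le_right _ _).trans (min_le_left _ _)
  have c3 : c₁ ≤ ε / (64 * Cp) := by
    rw [hc₁]
    exact (min_le_right _ _).trans (min_le_right _ _)
  rw [le_div_iff₀ (by positivity)] at c2 c3
  obtain ⟨c₂, hc₂⟩ : ∃ c₂ : ℝ, c₂ = c₁ / κ₀ := ⟨_, rfl⟩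
  have d0 : 0 < c₂ := by rw [hc₂]; positivity
  have d1 : κ₀ * c₂ = c₁ := by
    rw [hc₂]
    field_simp
  have d2 : c₂ ≤ c₁ := by nlinarith
  have d3 : Cp * c₂ ≤ Cp * c₁ := mul_le_mul_of_nonneg_left d2 (by linarith)
  obtain ⟨δ, hδ'⟩ : ∃ δ : ℝ, δ = min (c₂ / Cp) (δD / 4) := ⟨_, rfl⟩
  have e1 : δ ≤ c₂ / Cp := by rw [hδ']; exact min_le_left _ _
  have e2 : δ ≤ δD / 4 := by rw [hδ']; exact min_le_right _ _
  rw [le_div_iff₀ (by positivity)] at e1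
  refine ⟨c₁, c₂, δ, c0, d0, by rw [hδ']; exact lt_min (by positivity) (by positivity), d1.le,
    by linarith, by linarith, by linarith, by linarith, ?_⟩
  have f1 : √c₁ ≤ q := by
    have := Real.sqrt_le_sqrt c1
    rwa [Real.sqrt_mul_self hq0.le] at this
  have f2 : c₁ ≤ q := by nlinarith
  have f3 : (B + 1) * q = ε / 4 := by
    rw [hq]
    field_simp
  have f4 : B * (c₁ + √c₁) ≤ B * (2 * q) := mul_le_mul_of_nonneg_left (by linarith) hB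
  nlinarith

/-- **The dichotomy.** `V`: the volume; `c`: the calm levels. -/
theorem r1m_of {P : ℝ → ℝ → ℝ} {r c V : ℝ → ℝ} {W : Set ℝ} (hl : LipschitzWith 1 r)
    (hm : Monotone r) (h0 : ∀ w, 0 < w → w ≤ 1 → 0 ≤ P w w ∧ P w w ≤ 1)
    (hc : ∀ w₀ ∈ W, ∀ w₁ ∈ W, 0 < w₀ → w₀ < w₁ → w₁ ≤ 1 → c w₀ ≤ c w₁)
    (hD : R1T P r V W) {B κ₀ Cp : ℝ} (hB : 0 ≤ B) (hκ : 1 ≤ κ₀) (hCp : 1 ≤ Cp)
    (hN : ∀ w₀ ∈ W, ∀ w₁ ∈ W, 0 < w₀ → w₀ < w₁ → w₁ ≤ 1 → P w₁ w₁ = 1 → ∀ P1 cD : ℝ,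
      P w₀ w₀ + cD ≤ P1 → P1 < 1 → 0 < cD → cD ≤ 1 - P1 - (r 1 - r P1) →
      ∃ pa y mv : ℝ, 0 ≤ pa ∧ pa ≤ P w₀ w₀ ∧ V w₁ - V w₀ ≤ y + mv ∧
        y ≤ (w₁ - w₀) + (c w₁ - c w₀) ∧ RowM r B κ₀ Cp pa P1 y mv (cD / 8)) :
    R1M P r c W := by
  intro ε₀ hε₀
  obtain ⟨ε, hε⟩ : ∃ ε : ℝ, ε = min ε₀ 1 := ⟨_, rfl⟩
  have hε0 : 0 < ε := by rw [hε]; exact lt_min hε₀ one_pos
  have hε1 : ε ≤ 1 := by rw [hε]; exact min_le_right _ _
  have hεε : ε ≤ ε₀ := by rw [hε]; exact min_le_left _ _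
  obtain ⟨δD, hδD, hD⟩ := hD ε hε0
  obtain ⟨c₁, c₂, δ, k1, k2, k3, k4, k5, k6, k7, k8, k9⟩ := dich_num hε0 hε1 hδD hB hκ hCp
  refine ⟨δ, k3, fun w₀ b0 w₁ b1 a0 a1 a2 a3 a4 => ?_⟩
  obtain ⟨μ, hμ⟩ : ∃ μ, μ = 1 - P w₀ w₀ := ⟨_, rfl⟩
  have q0 := h0 w₀ a0 (by linarith)
  have hμ0 : 0 ≤ μ := by rw [hμ]; linarith
  rw [← hμ] at a4 ⊢
  have fin : ∀ m : ℝ, μ ≤ m → m ≤ 1 → nfr r (1 - m) 1 ≤ ε * m →
      ∃ m : ℝ, μ ≤ m ∧ m ≤ 1 ∧ (1 - ε₀) * m ≤ r 1 - r (1 - m) := by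
    intro m h1 h2 h3
    refine ⟨m, h1, h2, ?_⟩
    unfold nfr at h3
    have h4 : ε * m ≤ ε₀ * m := mul_le_mul_of_nonneg_right hεε (by linarith)
    linarith
  have e0 : 1 - μ = P w₀ w₀ := by rw [hμ]; ring
  -- one falling level
  rcases le_or_gt ((w₁ - w₀) + (V w₁ - V w₀)) (δD * μ) with hV | hV
  · have h1 := hD w₀ b0 w₁ b1 a0 a1 a2 a3 (by rw [← hμ]; exact hV)
    refine fin μ le_rfl (by linarith) ?_
    rw [e0]
    unfold nfr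
    rw [← hμ] at h1
    linarith
  -- the rows are full
  rcases le_or_gt (nfr r (P w₀ w₀) 1) (ε * μ) with hnf | hnf
  · exact fin μ le_rfl (by linarith) (by rw [e0]; exact hnf)
  -- the row `P1`
  have hμ1 : 0 < μ := by
    rcases hμ0.eq_or_lt with h | h
    · exfalso
      rw [← h, mul_zero] at hnf
      have h1 : P w₀ w₀ = 1 := by linarith
      rw [h1] at hnf
      unfold nfr at hnf
      linarith
    · exact h
  obtain ⟨cD, hcD⟩ : ∃ cD : ℝ, cD = ε / 4 * μ := ⟨_, rfl⟩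
  have hεμ : 0 < ε * μ := by positivity
  have hcD0 : 0 < cD := by rw [hcD]; positivity
  obtain ⟨P1, p1, p2, p3⟩ := nfr_row hl q0.2 hcD0.le (by linarith)
  have p4 : 3 / 4 * (ε * μ) < nfr r (P w₀ w₀) P1 := by
    have h1 := nfr_add (r := r) (P w₀ w₀) P1 1
    rw [p3] at h1
    linarith
  have p5 : nfr r (P w₀ w₀) P1 ≤ P1 - P w₀ w₀ := nfr_le hl hm le_rfl (by linarith)
  have p6 : P1 < 1 := by
    rcases p2.eq_or_lt with h | h
    · exfalso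
      rw [h] at p3
      unfold nfr at p3
      linarith
    · exact h
  obtain ⟨pa, y, mv, s1, s2, s3, s4, s5⟩ := hN w₀ b0 w₁ b1 a0 a1 a2 a3 P1 cD (by linarith) p6 hcD0
    (by
      unfold nfr at p3
      linarith)
  have hcc := hc w₀ b0 w₁ b1 a0 a1 a2
  have hy : y ≤ δ * μ := s4.trans a4
  have hww : w₁ - w₀ ≤ δ * μ := by linarith
  have g1 : Cp * (δ * μ) ≤ c₂ * μ := by
    rw [← mul_assoc]
    exact mul_le_mul_of_nonneg_right k5 hμ0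
  have g2 : 4 * (δ * μ) ≤ δD * μ := by
    rw [← mul_assoc]
    exact mul_le_mul_of_nonneg_right k8 hμ0
  have g3 : Cp * (c₂ * μ + c₁ * μ) ≤ δD / 2 * μ := by
    have := mul_le_mul_of_nonneg_right k6 hμ0
    linarith
  have g4 : Cp * (c₂ * μ + c₁ * μ) ≤ ε / 32 * μ := by
    have := mul_le_mul_of_nonneg_right k7 hμ0
    linarith
  have hrow := s5 (c₂ * μ) (c₁ * μ) (by positivity) (by
    rw [← mul_assoc]
    exact mul_le_mul_of_nonneg_right k4 hμ0)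
    ((mul_le_mul_of_nonneg_left hy (by linarith)).trans g1)
    (by linarith) (by linarith)
  obtain ⟨m, hmd⟩ : ∃ m : ℝ, m = 1 - pa := ⟨_, rfl⟩
  have m0 : μ ≤ m := by linarith
  refine fin m m0 (by linarith) ?_
  have e1 : 1 - m = pa := by rw [hmd]; ring
  rw [e1, ← nfr_add pa P1 1, p3]
  have t1 : √(c₁ * μ * (P1 - pa)) ≤ √c₁ * m := by
    have h1 : c₁ * μ * (P1 - pa) ≤ c₁ * (m * m) := by
      rw [mul_assoc]
      refine mul_le_mul_of_nonneg_left ?_ k1.le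
      exact mul_le_mul m0 (by linarith) (by linarith) (by linarith)
    refine (Real.sqrt_le_sqrt h1).trans ?_
    rw [Real.sqrt_mul k1.le, Real.sqrt_mul_self (by linarith)]
  have t2 : c₁ * μ ≤ c₁ * m := mul_le_mul_of_nonneg_left m0 k1.le
  have t3 : B * (c₁ * μ + √(c₁ * μ * (P1 - pa))) ≤ B * (c₁ * m + √c₁ * m) :=
    mul_le_mul_of_nonneg_left (by linarith) hB
  have t4 : B * (c₁ * m + √c₁ * m) ≤ ε / 2 * m := by
    have := mul_le_mul_of_nonneg_right k9 (show 0 ≤ m by linarith)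
    linarith
  have t5 : ε * μ ≤ ε * m := mul_le_mul_of_nonneg_left m0 hε0.le
  linarith

end Pool.PM
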