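import Pool.Agent.H22.M.Dich

/-!
# Plan M: steep classes at their last row

`LastW`, `BadR`, `ConT`: the window at which the last row is reached; all last rows have a defect;
the threshold is continuous there. `CalmB`: calm levels before it. `NoJ`: no jump.
`noAt_of`: **if all last rows have a defect, the threshold is continuous at the window at which the
last row is reached**, from `R1D` and the continuity of the volume there.
`pair_ex`: two windows before it, at the second one the number of the rows above the threshold is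
much smaller than at the first one, and much larger than the distance of the first one. `topM`: **the
last rows of a class which is steep at the window at which the last row is reached**, from `R1D`, the
continuity of the threshold there and the statement for two falling levels (`RowM`).
-/

set_option autoImplicit false

namespace Pool.PM

open Set Pool.STR

/-- **The window at which the last row is reached.** -/
def LastW (P : ℝ → ℝ → ℝ) (u : ℝ) : Prop :=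
  0 < u ∧ u < 1 ∧ (∀ w₀, 0 < w₀ → w₀ < u → P w₀ w₀ < 1) ∧ ∀ w₁, u < w₁ → w₁ ≤ 1 → P w₁ w₁ = 1

/-- All last rows have a defect. -/
def BadR (r : ℝ → ℝ) : Prop := ∀ Q : ℝ, 0 ≤ Q → Q < 1 → 0 < nfr r Q 1

/-- The threshold is continuous at the window at which the last row is reached. -/
def ConT (P : ℝ → ℝ → ℝ) (u : ℝ) : Prop := ∀ t : ℝ, 0 < t → ∃ z, 0 < z ∧ z < u ∧ 1 - P z z < t

/-- **Calm levels** before the window `u`. -/
def CalmB (c : ℝ → ℝ) (W : Set ℝ) (u : ℝ) : Prop :=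
  ∃ M η : ℝ, 0 < η ∧ ∀ w₀ ∈ W, ∀ w₁ ∈ W, 0 < w₀ → u - η < w₀ → w₀ < w₁ → w₁ < u →
    c w₁ - c w₀ ≤ M * (u - w₀)

/-- **No jump** at the window `u`. -/
def NoJ (V : ℝ → ℝ) (W : Set ℝ) (u : ℝ) : Prop :=
  ∀ t : ℝ, 0 < t → ∃ η : ℝ, 0 < η ∧ ∀ w₀ ∈ W, ∀ w₁ ∈ W, 0 < w₀ → u - η < w₀ → w₀ < u → u < w₁ →
    w₁ < u + η → w₁ ≤ 1 → V w₁ - V w₀ ≤ t

theorem NoJ.of_cont {V : ℝ → ℝ} {W : Set ℝ} {u : ℝ} (h : ContinuousAt V u) : NoJ V W u := by
  intro t ht
  rw [Metric.continuousAt_iff] at h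
  obtain ⟨η, hη, h⟩ := h (t / 2) (by linarith)
  refine ⟨η, hη, fun w₀ _ w₁ _ _ h1 h2 h3 h4 _ => ?_⟩
  have e0 := @h w₀ (by rw [Real.dist_eq, abs_lt]; constructor <;> linarith)
  have e1 := @h w₁ (by rw [Real.dist_eq, abs_lt]; constructor <;> linarith)
  rw [Real.dist_eq, abs_lt] at e0 e1
  linarith [e0.1, e1.2]

/-- **The threshold is continuous at the window at which the last row is reached**, if all last rows
have a defect and the volume is continuous there. -/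
theorem noAt_of {P : ℝ → ℝ → ℝ} {r V : ℝ → ℝ} {W : Set ℝ} (hl : LipschitzWith 1 r)
    (hW : Dense W) (h0 : ∀ w, 0 < w → w ≤ 1 → w ≤ P w w ∧ P w w ≤ 1)
    (hD : R1D P r V W) (hbad : BadR r)
    (hv : ∀ u, LastW P u → ¬ ConT P u → NoJ V W u) {u : ℝ} (hu0 : 0 < u) (hu1 : u < 1)
    (htop : ∀ w₁, u < w₁ → w₁ ≤ 1 → P w₁ w₁ = 1) {a : ℝ} (ha : a < 1) :
    ∃ w₀, 0 < w₀ ∧ w₀ < u ∧ a < P w₀ w₀ := by
  by_contra hcon
  push Not at hcon
  have hlt : ∀ w₀, 0 < w₀ → w₀ < u → P w₀ w₀ < 1 := fun w₀ h1 h2 => (hcon w₀ h1 h2).trans_lt ha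
  have hno := hv u ⟨hu0, hu1, hlt, htop⟩ fun hct => by
    obtain ⟨z, z0, z1, z2⟩ := hct (1 - a) (by linarith)
    have := hcon z z0 z1
    linarith
  have ha0 : 0 < a := by
    have h1 := hcon (u / 2) (by linarith) (by linarith)
    have h2 := (h0 (u / 2) (by linarith) (by linarith)).1
    linarith
  have hq := hbad a ha0.le ha
  obtain ⟨δ, hδ, hD⟩ := hD (nfr r a 1 / 2) (by linarith)
  obtain ⟨t, ht⟩ : ∃ t : ℝ, t = δ * (1 - a) / 4 := ⟨_, rfl⟩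
  have ht0 : 0 < t := by
    rw [ht]
    have : 0 < 1 - a := by linarith
    positivity
  obtain ⟨η, hη, hno⟩ := hno t ht0
  obtain ⟨w₀, b0, a1, a2⟩ := hW.exists_between (show max (u / 2) (max (u - η) (u - t)) < u from
    max_lt (by linarith) (max_lt (by linarith) (by linarith)))
  obtain ⟨w₁, b1, a3, a4⟩ := hW.exists_between (show u < min 1 (min (u + η) (u + t)) from
    lt_min hu1 (lt_min (by linarith) (by linarith)))
  have d1 := (le_max_left (u / 2) (max (u - η) (u - t))).trans_lt a1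
  have d2 := ((le_max_left (u - η) (u - t)).trans (le_max_right (u / 2) _)).trans_lt a1
  have d3 := ((le_max_right (u - η) (u - t)).trans (le_max_right (u / 2) _)).trans_lt a1
  have e1 := a4.trans_le (min_le_left 1 (min (u + η) (u + t)))
  have e2 := a4.trans_le ((min_le_right 1 (min (u + η) (u + t))).trans (min_le_left _ _))
  have e3 := a4.trans_le ((min_le_right 1 (min (u + η) (u + t))).trans (min_le_right _ _))
  have c0 : 0 < w₀ := by linarith only [d1, hu0]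
  have h1 := hno w₀ b0 w₁ b1 c0 d2 a2 a3 e2 e1.le
  have p0 := hcon w₀ c0 a2
  have p1 := htop w₁ a3 e1.le
  have h2 := hD w₀ b0 w₁ b1 c0 (a2.trans a3) e1.le (by
    rw [p1]
    have : δ * (1 - a) ≤ δ * (1 - P w₀ w₀) := mul_le_mul_of_nonneg_left (by linarith) hδ.le
    linarith only [this, h1, d3, e3, ht, ht0])
  rw [p1] at h2
  have q0 := (h0 w₀ c0 (by linarith)).1
  have h3 : nfr r (P w₀ w₀) 1 ≤ nfr r a 1 / 2 * (1 - P w₀ w₀) := by
    have h4 : nfr r (P w₀ w₀) 1 = (1 - P w₀ w₀) - (r 1 - r (P w₀ w₀)) := rfl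
    linarith only [h2, h4]
  have h4 : nfr r a 1 / 2 * (1 - P w₀ w₀) ≤ nfr r a 1 / 2 * 1 :=
    mul_le_mul_of_nonneg_left (by linarith) (by linarith)
  have h5 := nfr_add (r := r) (P w₀ w₀) a 1
  have h6 : 0 ≤ nfr r (P w₀ w₀) a := by
    have h7 := hl.dist_le_mul a (P w₀ w₀)
    rw [Real.dist_eq, Real.dist_eq, NNReal.coe_one, one_mul, abs_of_nonneg (show
      0 ≤ a - P w₀ w₀ by linarith)] at h7
    have h8 := (le_abs_self _).trans h7
    unfold nfr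
    linarith
  linarith

/-- **Two windows** before the window at which the last row is reached. -/
theorem pair_ex {P : ℝ → ℝ → ℝ} {W : Set ℝ} (hW : Dense W)
    (hP : ∀ w w', 0 < w → w ≤ w' → w' ≤ 1 → P w w ≤ P w' w') {u e κ η wi : ℝ} (hu : LastW P u)
    (hcon : ConT P u) (he : 0 < e) (hκ : 0 < κ) (hκ1 : κ ≤ 1)
    (hst : ∀ w₀, 0 < w₀ → u - η < w₀ → w₀ < u → u - w₀ ≤ e * (1 - P w₀ w₀))
    (hwi : wi ∈ W) (h0 : 0 < wi) (h1 : u - η < wi) (h2 : wi < u) :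
    ∃ w₀ ∈ W, ∃ w₁ ∈ W, wi ≤ w₀ ∧ w₀ < w₁ ∧ w₁ < u ∧ 1 - P w₁ w₁ < κ * (1 - P w₀ w₀) ∧
      κ * κ * (u - w₀) ≤ 2 * e * (1 - P w₁ w₁) := by
  obtain ⟨hu0, hu1, hlt, htop⟩ := hu
  obtain ⟨x, hx⟩ : ∃ x, x = κ * (1 - P wi wi) := ⟨_, rfl⟩
  have hmi := hlt wi h0 h2
  have hx0 : 0 < x := by
    rw [hx]
    exact mul_pos hκ (by linarith)
  have hxi : x ≤ 1 - P wi wi := by
    rw [hx]
    exact mul_le_of_le_one_left (by linarith) hκ1
  obtain ⟨T, hT⟩ : ∃ T : Set ℝ, T = {z | wi ≤ z ∧ z ≤ 1 ∧ x ≤ 1 - P z z} := ⟨_, rfl⟩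
  have m0 : wi ∈ T := by
    rw [hT]
    exact ⟨le_rfl, by linarith, hxi⟩
  obtain ⟨z₀, z1, z2, z3⟩ := hcon x hx0
  have hb : ∀ z ∈ T, z ≤ z₀ := by
    intro z hz
    rw [hT] at hz
    obtain ⟨y1, y2, y3⟩ := hz
    by_contra hcon'
    push Not at hcon'
    have := hP z₀ z z1 hcon'.le y2
    linarith
  obtain ⟨wc, hwc⟩ : ∃ wc, wc = sSup T := ⟨_, rfl⟩
  have c0 : wi ≤ wc := by
    rw [hwc]
    exact le_csSup ⟨z₀, hb⟩ m0
  have c1 : wc < u := by
    rw [hwc]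
    exact (csSup_le ⟨wi, m0⟩ hb).trans_lt z2
  have hafter : ∀ z, wc < z → z ≤ 1 → 1 - P z z < x := by
    intro z hz hz1
    by_contra hcon'
    push Not at hcon'
    have h3 : z ∈ T := by
      rw [hT]
      exact ⟨by linarith, hz1, hcon'⟩
    have h4 : z ≤ wc := by
      rw [hwc]
      exact le_csSup ⟨z₀, hb⟩ h3
    linarith
  have hbefore : ∀ z, 0 < z → z < wc → x ≤ 1 - P z z := by
    intro z hz0 hz1
    rw [hwc] at hz1
    obtain ⟨z', hz', hz2⟩ := exists_lt_of_lt_csSup ⟨wi, m0⟩ hz1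
    rw [hT] at hz'
    obtain ⟨a1, a2, a3⟩ := hz'
    have := hP z z' hz0 hz2.le a2
    linarith
  by_cases hbig : ∃ z, wc < z ∧ z < u ∧ κ * x ≤ 1 - P z z
  · obtain ⟨z, g1, g2, g3⟩ := hbig
    obtain ⟨w₁, b1, f1, f2⟩ := hW.exists_between g1
    have f3 := hP w₁ z (by linarith) f2.le (by linarith)
    have f4 := hafter w₁ f1 (by linarith)
    refine ⟨wi, hwi, w₁, b1, le_rfl, by linarith, by linarith, by rwa [← hx], ?_⟩
    have f5 := hst wi h0 h1 h2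
    have f6 : κ * κ * (u - wi) ≤ κ * κ * (e * (1 - P wi wi)) :=
      mul_le_mul_of_nonneg_left f5 (by positivity)
    have f7 : κ * κ * (e * (1 - P wi wi)) = e * (κ * x) := by rw [hx]; ring
    have f8 : e * (κ * x) ≤ e * (1 - P w₁ w₁) := mul_le_mul_of_nonneg_left (by linarith) he.le
    have f9 : 0 ≤ e * (1 - P w₁ w₁) :=
      mul_nonneg he.le (by linarith [hlt w₁ (by linarith) (by linarith)])
    linarith
  · push Not at hbig
    obtain ⟨zs, s1, s2⟩ := exists_between c1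
    have hms := hlt zs (by linarith) s2
    obtain ⟨t, ht⟩ : ∃ t, t = e / 2 * (1 - P zs zs) := ⟨_, rfl⟩
    have ht0 : 0 < t := by
      rw [ht]
      exact mul_pos (by linarith) (by linarith)
    obtain ⟨w₁, b1, f1, f2⟩ := hW.exists_between (show wc < min zs (wc + t) from
      lt_min s1 (by linarith))
    have f3 := f2.trans_le (min_le_left _ _)
    have f4 := f2.trans_le (min_le_right _ _)
    have hm1 := hP w₁ zs (by linarith) f3.le (by linarith)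
    have hk1 := hbig w₁ f1 (by linarith)
    rcases eq_or_lt_of_le c0 with hc | hc
    · -- the first window is the jump
      refine ⟨wi, hwi, w₁, b1, le_rfl, by linarith, by linarith, ?_, ?_⟩
      · have : κ * x ≤ κ * (1 - P wi wi) := mul_le_mul_of_nonneg_left hxi hκ.le
        linarith
      have g1 := hst w₁ (by linarith) (by linarith) (by linarith)
      have g2 : t ≤ e / 2 * (1 - P w₁ w₁) := by
        rw [ht]
        exact mul_le_mul_of_nonneg_left (by linarith) (by linarith)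
      have g3 : u - wi ≤ 2 * e * (1 - P w₁ w₁) := by
        have : 0 ≤ e * (1 - P w₁ w₁) := mul_nonneg he.le (by linarith)
        linarith
      have g4 : κ * κ ≤ 1 := mul_le_one₀ hκ1 hκ.le hκ1
      exact (mul_le_of_le_one_left (by linarith) g4).trans g3
    · obtain ⟨w₀, b0, e1, e2⟩ := hW.exists_between (show max wi (wc - t) < wc from
        max_lt hc (by linarith))
      have e3 := (le_max_left _ _).trans_lt e1
      have e4 := (le_max_right _ _).trans_lt e1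
      have e5 := hbefore w₀ (by linarith) e2
      refine ⟨w₀, b0, w₁, b1, e3.le, by linarith, by linarith, ?_, ?_⟩
      · have : κ * x ≤ κ * (1 - P w₀ w₀) := mul_le_mul_of_nonneg_left e5 hκ.le
        linarith
      have g1 := hst w₁ (by linarith) (by linarith) (by linarith)
      have g2 : t ≤ e / 2 * (1 - P w₁ w₁) := by
        rw [ht]
        exact mul_le_mul_of_nonneg_left (by linarith) (by linarith)
      have g3 : u - w₀ ≤ 2 * e * (1 - P w₁ w₁) := by linarith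
      have g4 : κ * κ ≤ 1 := mul_le_one₀ hκ1 hκ.le hκ1
      exact (mul_le_of_le_one_left (by linarith) g4).trans g3

/-- The end of the dichotomy: many falling levels. -/
theorem top_mv {r : ℝ → ℝ} {ε B κ₀ Cp c₁ c₂ δ δD μ μ₁ pa P1 y mv cD cq VV ww : ℝ}
    (hε0 : 0 < ε) (hμ₁ : 0 < μ₁) (hμμ : μ₁ ≤ μ) (hB : 0 ≤ B) (hCp : 1 ≤ Cp) (hδD : 0 < δD)
    (bad : ∀ m : ℝ, 0 < m → m ≤ 1 → ε * m < nfr r (1 - m) 1)
    (k1 : 0 < c₁) (k2 : 0 < c₂) (k4 : κ₀ * c₂ ≤ c₁) (k5 : Cp * δ ≤ c₂)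
    (k6 : Cp * (c₂ + c₁) ≤ δD / 4) (k7 : Cp * (c₂ + c₁) ≤ cq / 16) (k8 : 8 * δ ≤ δD)
    (k9 : B * (c₁ + √c₁) ≤ ε / 4) (hcD : cD = cq * μ₁)
    (hV : δD * (7 / 8 * μ) ≤ ww + VV) (hww : ww ≤ δ * μ₁) (hy : y ≤ δ * μ₁)
    (s3 : 0 ≤ pa) (s4 : pa ≤ 1 - μ) (s5 : VV ≤ y + mv) (hP : P1 ≤ 1) (hP1 : pa ≤ P1)
    (p3 : nfr r P1 1 = ε / 4 * μ) (s7 : RowM r B κ₀ Cp pa P1 y mv (cD / 16)) : False := by
  have g1 : Cp * (δ * μ₁) ≤ c₂ * μ₁ := by
    rw [← mul_assoc]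
    exact mul_le_mul_of_nonneg_right k5 hμ₁.le
  have g2 : 8 * (δ * μ₁) ≤ δD * μ₁ := by
    rw [← mul_assoc]
    exact mul_le_mul_of_nonneg_right k8 hμ₁.le
  have g5 : δD * μ₁ ≤ δD * μ := mul_le_mul_of_nonneg_left hμμ hδD.le
  have g3 : Cp * (c₂ * μ₁ + c₁ * μ₁) ≤ δD / 4 * μ₁ := by
    have := mul_le_mul_of_nonneg_right k6 hμ₁.le
    linarith only [this]
  have g4 : Cp * (c₂ * μ₁ + c₁ * μ₁) ≤ cD / 16 := by
    have := mul_le_mul_of_nonneg_right k7 hμ₁.le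
    rw [hcD]
    linarith only [this]
  have hrow := s7 (c₂ * μ₁) (c₁ * μ₁) (by positivity) (by
    rw [← mul_assoc]
    exact mul_le_mul_of_nonneg_right k4 hμ₁.le)
    ((mul_le_mul_of_nonneg_left hy (by linarith only [hCp])).trans g1)
    (by linarith only [g3, g2, g5, hV, hww, hy, s5, mul_pos hδD hμ₁]) g4
  obtain ⟨m, hmd⟩ : ∃ m : ℝ, m = 1 - pa := ⟨_, rfl⟩
  have m0 : μ ≤ m := by linarith only [hmd, s4]
  have m1 : μ₁ ≤ m := hμμ.trans m0
  have e1 : 1 - m = pa := by rw [hmd]; ring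
  have hfinal := bad m (by linarith only [hμ₁, m1]) (by linarith only [hmd, s3])
  rw [e1, ← nfr_add pa P1 1, p3] at hfinal
  have hm0 : 0 ≤ m := by linarith only [hμ₁, m1]
  have t1 : √(c₁ * μ₁ * (P1 - pa)) ≤ √c₁ * m := by
    have h1 : c₁ * μ₁ * (P1 - pa) ≤ c₁ * (m * m) := by
      rw [mul_assoc]
      refine mul_le_mul_of_nonneg_left ?_ k1.le
      exact mul_le_mul m1 (by linarith only [hmd, hP]) (by linarith only [hP1]) hm0
    refine (Real.sqrt_le_sqrt h1).trans ?_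
    rw [Real.sqrt_mul k1.le, Real.sqrt_mul_self hm0]
  have t2 : c₁ * μ₁ ≤ c₁ * m := mul_le_mul_of_nonneg_left m1 k1.le
  have t3 : B * (c₁ * μ₁ + √(c₁ * μ₁ * (P1 - pa))) ≤ B * (c₁ * m + √c₁ * m) :=
    mul_le_mul_of_nonneg_left (by linarith only [t1, t2]) hB
  have t4 : B * (c₁ * m + √c₁ * m) ≤ ε / 4 * m := by
    have := mul_le_mul_of_nonneg_right k9 hm0
    linarith only [this]
  have t5 : ε * μ ≤ ε * m := mul_le_mul_of_nonneg_left m0 hε0.le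
  have t7 : 0 < ε * m := by
    have : 0 < m := by linarith only [hμ₁, m1]
    positivity
  linarith only [hfinal, hrow, t3, t4, t5, t7]

/-- **The dichotomy at two windows**, if all last rows have a defect. -/
theorem top_two {r : ℝ → ℝ} (hl : LipschitzWith 1 r) (hm : Monotone r)
    {ε B κ₀ Cp c₁ c₂ δ δD μ μ₁ p0 p1 w₁ VV ww cD cq cc : ℝ}
    (hε0 : 0 < ε) (hε1 : ε ≤ 1) (hμ : μ = 1 - p0) (hμ1 : μ₁ = 1 - p1) (hμ₁ : 0 < μ₁) (hB : 0 ≤ B)
    (hCp : 1 ≤ Cp)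
    (bad : ∀ m : ℝ, 0 < m → m ≤ 1 → ε * m < nfr r (1 - m) 1)
    (k1 : 0 < c₁) (k2 : 0 < c₂) (k3 : 0 < δ) (k4 : κ₀ * c₂ ≤ c₁) (k5 : Cp * δ ≤ c₂)
    (k6 : Cp * (c₂ + c₁) ≤ δD / 4) (k7 : Cp * (c₂ + c₁) ≤ cq / 16) (k8 : 8 * δ ≤ δD)
    (k9 : B * (c₁ + √c₁) ≤ ε / 4) (hcq0 : 0 < cq) (hcq : cq ≤ ε / 8) (hcD : cD = cq * μ₁)
    (q0 : 0 ≤ p0)
    (hp1 : μ₁ < ε / 8 * μ) (hδD : 0 < δD)
    (hD : ww + VV ≤ δD * (p1 - p0) → (1 - ε / 2) * (p1 - p0) ≤ r p1 - r p0)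
    (hww : ww ≤ δ * μ₁) (hcc : cc ≤ δ * μ₁) (hw1 : w₁ ≤ p0 + ww)
    (hN : ∀ P1 : ℝ, w₁ < P1 → p0 + cD ≤ P1 → P1 < p1 → 0 < cD → cD ≤ nfr r P1 1 →
      ∃ pa y mv : ℝ, 0 ≤ pa ∧ pa ≤ p0 ∧ VV ≤ y + mv ∧ y ≤ cc ∧
        RowM r B κ₀ Cp pa P1 y mv (cD / 16)) : False := by
  have hμ0 : 0 < μ := by
    have h1 : 0 < ε / 8 * μ := hμ₁.trans hp1
    exact pos_of_mul_pos_right h1 (by linarith only [hε0])
  have hεμ : 0 < ε * μ := by positivity
  have hε8 : ε / 8 * μ ≤ μ / 8 := by nlinarith only [hε1, hμ0]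
  have hμμ : μ₁ ≤ μ := by linarith only [hp1, hε8, hμ0]
  have hcD0 : 0 < cD := by rw [hcD]; positivity
  have hcD2 : cD ≤ ε / 8 * μ := by
    rw [hcD]
    exact mul_le_mul hcq hμμ hμ₁.le (by linarith only [hε0])
  have bad0 := bad μ hμ0 (by linarith only [hμ, q0])
  have e0 : 1 - μ = p0 := by rw [hμ]; ring
  rw [e0] at bad0
  have hp01 : p0 ≤ p1 := by linarith only [hμμ, hμ, hμ1]
  have q1 : p1 ≤ 1 := by linarith only [hμ1, hμ₁]
  -- one falling level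
  rcases le_or_gt (ww + VV) (δD * (p1 - p0)) with hV | hV
  · have h5 := hD hV
    have h6 : nfr r p0 p1 ≤ ε / 2 * (p1 - p0) := by
      unfold nfr
      linarith only [h5]
    have h7 : nfr r p1 1 ≤ 1 - p1 := nfr_le hl hm le_rfl (by linarith only [q1])
    have h8 := nfr_add (r := r) p0 p1 1
    have h9 : ε / 2 * (p1 - p0) ≤ ε / 2 * μ := by
      refine mul_le_mul_of_nonneg_left ?_ (by linarith only [hε0])
      linarith only [q1, hμ]
    linarith only [h6, h7, h8, h9, bad0, hp1, hεμ, hμ1]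
  -- the row `P1`
  obtain ⟨P1, p1', p2, p3⟩ := nfr_row hl (show p0 ≤ 1 by linarith only [hμ, hμ0])
    (t := ε / 4 * μ) (by positivity) (by linarith only [bad0, hεμ])
  have p4 : 3 / 4 * (ε * μ) < nfr r p0 P1 := by
    have h5 := nfr_add (r := r) p0 P1 1
    rw [p3] at h5
    linarith only [h5, bad0]
  have p5 : nfr r p0 P1 ≤ P1 - p0 := nfr_le hl hm le_rfl (by linarith only [p1'])
  have p6 : ε / 4 * μ ≤ 1 - P1 := by
    rw [← p3]
    exact nfr_le hl hm le_rfl (by linarith only [p2])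
  have hδ1 : δ ≤ ε / 64 := by
    have h1 : 0 ≤ (Cp - 1) * δ := mul_nonneg (by linarith only [hCp]) k3.le
    have h2 : 0 ≤ (Cp - 1) * (c₂ + c₁) :=
      mul_nonneg (by linarith only [hCp]) (by linarith only [k1, k2])
    linarith only [h1, h2, hcq, k5, k7, k1, k2]
  have hδμ : δ * μ₁ ≤ ε / 64 * μ :=
    mul_le_mul hδ1 hμμ hμ₁.le (by linarith only [hε0])
  obtain ⟨pa, y, mv, s3, s4, s5, s6, s7⟩ := hN P1 (by linarith only [hw1, hww, hδμ, p4, p5, hεμ])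
    (by linarith only [p4, p5, hcD2, hεμ]) (by linarith only [p6, hp1, hεμ, hμ1]) hcD0
    (by rw [p3]; linarith only [hcD2, hεμ])
  refine top_mv hε0 hμ₁ hμμ hB hCp hδD bad k1 k2 k4 k5 k6 k7 k8 k9 hcD (ww := ww) (VV := VV) ?_ hww
    (s6.trans hcc) s3 (by linarith only [s4, hμ]) s5 p2 (by linarith only [s4, p1']) p3 s7
  have h9 : 7 / 8 * μ ≤ p1 - p0 := by linarith only [hε8, hp1, hμ, hμ1]
  have := mul_le_mul_of_nonneg_left h9 hδD.le
  linarith only [this, hV]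

/-- **Steep classes at their last row.** `V`: the volume; `c`: the calm levels. -/
theorem topM {P : ℝ → ℝ → ℝ} {r c V : ℝ → ℝ} {W : Set ℝ} (hl : LipschitzWith 1 r)
    (hm : Monotone r) (hW : Dense W) (h0 : ∀ w, 0 < w → w ≤ 1 → w ≤ P w w ∧ P w w ≤ 1)
    (hP : ∀ w w', 0 < w → w ≤ w' → w' ≤ 1 → P w w ≤ P w' w')
    (hc : ∀ w₀ ∈ W, ∀ w₁ ∈ W, 0 < w₀ → w₀ < w₁ → w₁ ≤ 1 → c w₀ ≤ c w₁)
    (hD : R1D P r V W) (hv : ∀ u, LastW P u → BadR r → ¬ ConT P u → NoJ V W u)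
    (hN : ∀ u, LastW P u → BadR r → ConT P u → CalmB c W u ∧ ∃ A B κ₀ Cp η₀ : ℝ,
      1 ≤ A ∧ 0 ≤ B ∧ 1 ≤ κ₀ ∧ 1 ≤ Cp ∧ 0 < η₀ ∧
      ∀ w₀ ∈ W, ∀ w₁ ∈ W, 0 < w₀ → u - η₀ < w₀ → w₀ < w₁ → w₁ < u → ∀ P1 cD : ℝ,
      w₁ < P1 → P w₀ w₀ + cD ≤ P1 → P1 < P w₁ w₁ → 0 < cD → cD ≤ nfr r P1 1 →
      cD ≤ nfr r (P w₁ w₁) 1 →
      ∃ pa y mv : ℝ, 0 ≤ pa ∧ pa ≤ P w₀ w₀ ∧ V w₁ - V w₀ ≤ y + mv ∧
        y ≤ A * ((u - w₀) + (c w₁ - c w₀)) ∧ RowM r B κ₀ Cp pa P1 y mv (cD / 16)) :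
    TopW P r := by
  intro w hw hw1 hlt htop hst ε₀ hε₀
  by_contra hcon
  push Not at hcon
  -- the numbers
  obtain ⟨ε, hε⟩ : ∃ ε : ℝ, ε = min ε₀ 1 := ⟨_, rfl⟩
  have hε0 : 0 < ε := by rw [hε]; exact lt_min hε₀ one_pos
  have hε1 : ε ≤ 1 := by rw [hε]; exact min_le_right _ _
  have hεε : ε ≤ ε₀ := by rw [hε]; exact min_le_left _ _
  have bad : ∀ m : ℝ, 0 < m → m ≤ 1 → ε * m < nfr r (1 - m) 1 := by
    intro m m0 m1
    have h1 := hcon m m0 m1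
    have h2 : ε * m ≤ ε₀ * m := mul_le_mul_of_nonneg_right hεε m0.le
    unfold nfr
    linarith only [h1, h2]
  have hbad : BadR r := by
    intro Q hQ0 hQ1
    have h1 := bad (1 - Q) (by linarith) (by linarith)
    rw [sub_sub_cancel] at h1
    exact lt_of_le_of_lt (mul_nonneg hε0.le (by linarith)) h1
  have hu : LastW P w := ⟨hw, hw1, hlt, htop⟩
  have hcon : ConT P w := by
    intro t ht
    obtain ⟨z, z0, z1, z2⟩ := noAt_of hl hW h0 hD hbad (fun u h1 h2 => hv u h1 hbad h2) hw hw1 htop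
      (a := 1 - t) (by linarith)
    exact ⟨z, z0, z1, by linarith⟩
  obtain ⟨⟨M₀, η₀, hη₀, hfin⟩, A, B, κ₀, Cp, η₁, hA, hB, hκ, hCp, hη₁, hN⟩ := hN w hu hbad hcon
  obtain ⟨cq, hcq⟩ : ∃ cq : ℝ, cq = ε / 8 := ⟨_, rfl⟩
  have cq0 : 0 < cq := by rw [hcq]; positivity
  have cq1 : cq ≤ ε / 8 := hcq.le
  obtain ⟨δD, hδD, hD⟩ := hD (ε / 2) (by linarith only [hε0])
  obtain ⟨c₁, c₂, δ, k1, k2, k3, k4, k5, k6, k7, k8, k9⟩ := dich_num (ε := cq)
    (δD := δD / 2) cq0 (by linarith only [cq1, hε1]) (by linarith only [hδD]) hB hκ hCp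
  obtain ⟨M, hMd⟩ : ∃ M, M = max M₀ 0 := ⟨_, rfl⟩
  have hM0 : 0 ≤ M := by rw [hMd]; exact le_max_right _ _
  have hM1 : M₀ ≤ M := by rw [hMd]; exact le_max_left _ _
  obtain ⟨κ, hκd⟩ : ∃ κ : ℝ, κ = ε / 8 := ⟨_, rfl⟩
  have κ0 : 0 < κ := by rw [hκd]; positivity
  have κ1 : κ ≤ 1 := by rw [hκd]; linarith only [hε1]
  obtain ⟨e, he⟩ : ∃ e, e = δ * (κ * κ) / (2 * (A * (1 + M))) := ⟨_, rfl⟩
  have hAM : 0 < A * (1 + M) := by positivity
  have e0 : 0 < e := by rw [he]; positivity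
  have eM : A * (1 + M) * (2 * e) = δ * (κ * κ) := by
    rw [he]
    field_simp
  obtain ⟨η, hη, hst⟩ := hst e e0
  -- the first window
  obtain ⟨wi, bi, ci1, ci2⟩ := hW.exists_between
    (show max (max (w / 2) (w - η₁)) (max (w - η) (w - η₀)) < w from
      max_lt (max_lt (by linarith only [hw]) (by linarith only [hη₁]))
        (max_lt (by linarith only [hη]) (by linarith only [hη₀])))
  have d1 := ((le_max_left (w / 2) (w - η₁)).trans (le_max_left _ (max (w - η) (w - η₀)))).trans_lt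
    ci1
  have d4 := ((le_max_right (w / 2) (w - η₁)).trans
    (le_max_left _ (max (w - η) (w - η₀)))).trans_lt ci1
  have d2 := ((le_max_left (w - η) (w - η₀)).trans
    (le_max_right (max (w / 2) (w - η₁)) _)).trans_lt ci1
  have d3 := ((le_max_right (w - η) (w - η₀)).trans
    (le_max_right (max (w / 2) (w - η₁)) _)).trans_lt ci1
  -- the two windows
  obtain ⟨w₀, b0, w₁, b1, g0, g1, g2, g4, g5⟩ := pair_ex hW hP hu hcon e0 κ0 κ1 hst bi
    (by linarith only [d1, hw]) d2 ci2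
  have a0 : 0 < w₀ := by linarith only [d1, hw, g0]
  have c2 : w₀ < w := g1.trans g2
  have l1 := hlt w₀ a0 c2
  have a1 : 0 < w₁ := a0.trans g1
  have l2 := hlt w₁ a1 g2
  obtain ⟨μ, hμ⟩ : ∃ μ, μ = 1 - P w₀ w₀ := ⟨_, rfl⟩
  obtain ⟨μ₁, hμ₁⟩ : ∃ μ₁, μ₁ = 1 - P w₁ w₁ := ⟨_, rfl⟩
  have hμ₁0 : 0 < μ₁ := by rw [hμ₁]; linarith only [l2]
  have f1 : w₁ < 1 := g2.trans hw1
  have p0 := h0 w₀ a0 (g1.le.trans f1.le)
  have p1 := h0 w₁ a1 f1.le
  rw [← hμ, ← hμ₁, hκd] at g4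
  rw [← hμ₁] at g5
  have hcD3 : cq * μ₁ ≤ nfr r (P w₁ w₁) 1 := by
    have h1 := bad (1 - P w₁ w₁) (by linarith only [l2]) (by linarith only [p1.1, a1])
    rw [sub_sub_cancel, ← hμ₁] at h1
    refine le_trans ?_ h1.le
    exact mul_le_mul_of_nonneg_right (by linarith only [cq1, hε0]) hμ₁0.le
  -- the falls of the calm levels
  have h3 := hfin w₀ b0 w₁ b1 a0 (by linarith only [d3, g0]) g1 g2
  have h4 : c w₁ - c w₀ ≤ M * (w - w₀) :=
    h3.trans (mul_le_mul_of_nonneg_right hM1 (by linarith only [c2]))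
  have hcc : c w₀ ≤ c w₁ := hc w₀ b0 w₁ b1 a0 g1 f1.le
  have hA0 : 0 < A := by linarith only [hA]
  have r1 : (w - w₀) + (c w₁ - c w₀) ≤ (1 + M) * (w - w₀) := by linarith only [h4]
  have z1 : A * ((w - w₀) + (c w₁ - c w₀)) ≤ δ * μ₁ := by
    have h5 : A * ((w - w₀) + (c w₁ - c w₀)) ≤ A * ((1 + M) * (w - w₀)) :=
      mul_le_mul_of_nonneg_left r1 hA0.le
    have h6 : A * (1 + M) * (κ * κ * (w - w₀)) ≤ A * (1 + M) * (2 * e * μ₁) :=
      mul_le_mul_of_nonneg_left g5 hAM.le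
    have h7 : A * (1 + M) * (2 * e * μ₁) = δ * (κ * κ) * μ₁ := by rw [← eM]; ring
    have h8 : κ * κ * (A * (1 + M) * (w - w₀)) ≤ κ * κ * (δ * μ₁) := by
      linarith only [h6, h7]
    have h9 := le_of_mul_le_mul_left h8 (by positivity)
    linarith only [h5, h9]
  have hww : w₁ - w₀ ≤ δ * μ₁ := by
    have h5 : 0 ≤ (A - 1) * ((w - w₀) + (c w₁ - c w₀)) :=
      mul_nonneg (by linarith only [hA]) (by linarith only [c2, hcc])
    linarith only [h5, z1, hcc, g2]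
  refine top_two hl hm (p1 := P w₁ w₁) (w₁ := w₁) (VV := V w₁ - V w₀)
    (ww := w₁ - w₀) (cc := A * ((w - w₀) + (c w₁ - c w₀))) hε0 hε1 hμ hμ₁ hμ₁0 hB hCp bad k1 k2 k3
    k4 k5 (by linarith only [k6]) (by linarith only [k7, cq0]) (by linarith only [k8])
    (by linarith only [k9, cq1, hε0]) cq0 cq1 rfl
    (a0.le.trans p0.1) g4 hδD
    (fun hV => hD w₀ b0 w₁ b1 a0 g1 f1.le hV) hww z1
    (by linarith only [p0.1]) fun P1 h1 h2 h3 h4 h5 =>
      hN w₀ b0 w₁ b1 a0 (by linarith only [d4, g0]) g1 g2 P1 _ h1 h2 h3 h4 h5 hcD3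

end Pool.PM
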