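import Pool.Agent.H22.M.Stm
import Pool.Agent.H22.M.TopM
import Pool.Agent.H96.R1.Twc
import Pool.Agent.H93.PM.Afl

/-!
# Plan M: the class and the pairs of windows

`PkA`: a package together with the thresholds `pa σ i` of the affine labels; `Wp`: its windows.
`pka_ex`: it exists in a subclass. `vc`: the calm levels. `PrOk`: the facts for one pair of windows;
`PairM`: they hold at the pairs of windows at which the top numbers are not full.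
-/

set_option autoImplicit false

namespace Pool.PM

open Finset Real
open Pool.Agent.H49.Ent Pool.Agent.H32.Dense Pool.STK Pool.KA Pool.KSAT Pool.K2S Pool.PB
open Pool.GEN Pool.S6C Pool.GRW Pool.PKG Pool.R1
open Pool.CHT (chsys bet)
open Pool.LBT (ThrOf)
open Pool.ONE (lst LocN Mic Sta Jmp)
open Pool.ALL (RateOf)
open Pool.M3F (ExvY)
open Pool.PM93 (AflOf)

section

variable {n : ℕ}

/-- **A class with its numbers and the thresholds of the affine labels.** -/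
structure PkA (hn : 2 ≤ n) (S : PCl n) (P : ℝ → ℝ → ℝ) (r : ℝ → ℝ)
    (P' : ℕ → List (Fin n) × Fin n → ℝ → ℝ → ℝ) (Λ : Finset (Fin n) → Fin n → ℝ → ℝ → ℝ)
    (pa : Equiv.Perm (Fin (n - 1)) → Fin n → ℝ → ℝ) : Prop extends Pk hn S P r P' Λ where
  hcl : ∃ (al : ℝ) (g₀ : ℝ → ℝ) (s : Fin n → ℝ) (d : ℕ → ℝ) (e : ℝ) (K₀ : ℕ)
    (N : ℚ → ℚ → ℝ), 0 < al ∧ (∀ ε : ℝ, 0 < ε → 0 < g₀ ε) ∧ NumX s d ∧ 0 < e ∧
      ClX s d al g₀ e K₀ N S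
  afl : ∀ (σ : Equiv.Perm (Fin (n - 1))) (i : Fin n), AflOf S (cc hn σ) (i : ℕ) (pa σ i)

/-- **The windows.** -/
def Wp (P : ℝ → ℝ → ℝ) (P' : ℕ → List (Fin n) × Fin n → ℝ → ℝ → ℝ)
    (Λ : Finset (Fin n) → Fin n → ℝ → ℝ → ℝ) (pa : Equiv.Perm (Fin (n - 1)) → Fin n → ℝ → ℝ) :
    Set ℝ := {w | w ∈ Wr P P' Λ ∧ ∀ σ i, ContinuousAt (pa σ i) w}

variable {hn : 2 ≤ n} {S : PCl n} {P : ℝ → ℝ → ℝ} {r : ℝ → ℝ}
  {P' : ℕ → List (Fin n) × Fin n → ℝ → ℝ → ℝ} {Λ : Finset (Fin n) → Fin n → ℝ → ℝ → ℝ}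
  {pa : Equiv.Perm (Fin (n - 1)) → Fin n → ℝ → ℝ}

theorem wp_ae (H : PkA hn S P r P' Λ pa) : ∀ᵐ w : ℝ, 0 < w → w < 1 → w ∈ Wp P P' Λ pa := by
  have h2 : ∀ᵐ w : ℝ, ∀ σ i, ContinuousAt (pa σ i) w := by
    refine MeasureTheory.ae_all_iff.2 fun σ => MeasureTheory.ae_all_iff.2 fun i => ?_
    have h3 : ∀ᵐ w : ℝ, w ∉ {w | ¬ ContinuousAt (pa σ i) w} := (H.afl σ i).countable.ae_notMem _
    filter_upwards [h3] with w h4
    by_contra hcon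
    exact h4 hcon
  filter_upwards [wr_ae H.toPk, h2] with w b1 b2 h h'
  exact ⟨b1 h h', b2⟩

theorem pk_subc (H : Pk hn S P r P' Λ) {S' : PCl n} (hne : S'.Ne)
    (hs : ∀ (τ : ℝ) (J : ℕ) (F : Fam n J) (A : F.Ω → Prop), S'.St τ J F A → S.St τ J F A) :
    Pk hn S' P r P' Λ := by
  obtain ⟨al, g₀, s, d, e, K₀, N, hal, hg₀, hC⟩ := H.cl
  exact ⟨⟨al, g₀, s, d, e, K₀, N, hal, hg₀, hC.sub hne hs⟩, H.tgs.sub hs, H.rate.sub hs,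
    fun j => (H.cht j).sub hs, H.reg, H.lam.sub hs⟩

/-- The affine thresholds exist in a subclass, for finitely many coordinates. -/
theorem afl_fin {S : PCl n} (hS : S.Ne) (c : ℕ → ℕ → Fin n) (i : ℕ → ℕ) (N : ℕ) :
    ∃ S' : PCl n, S'.Ne ∧
      (∀ (τ : ℝ) (J : ℕ) (F : Fam n J) (A : F.Ω → Prop), S'.St τ J F A → S.St τ J F A) ∧
      ∀ k < N, ∃ p, AflOf S' (c k) (i k) p := by
  induction N with
  | zero => exact ⟨S, hS, fun _ _ _ _ h => h, fun k hk => absurd hk (Nat.not_lt_zero _)⟩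
  | succ N ih =>
    obtain ⟨S₁, h1, h2, h3⟩ := ih
    obtain ⟨S₂, p, g1, g2, g3⟩ := Pool.PM93.afl_thr h1 (c N) (i N)
    refine ⟨S₂, g1, fun τ J F A h => h2 τ J F A (g2 τ J F A h), fun k hk => ?_⟩
    rcases Nat.lt_succ_iff_lt_or_eq.1 hk with h4 | rfl
    · obtain ⟨q, hq⟩ := h3 k h4
      exact ⟨q, hq.sub g2⟩
    · exact ⟨p, g3⟩

theorem afl_all {S : PCl n} (hS : S.Ne) {ι : Type} [Fintype ι] (c : ι → ℕ → Fin n) (i : ι → ℕ) :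
    ∃ S' : PCl n, S'.Ne ∧
      (∀ (τ : ℝ) (J : ℕ) (F : Fam n J) (A : F.Ω → Prop), S'.St τ J F A → S.St τ J F A) ∧
      ∀ k, ∃ p, AflOf S' (c k) (i k) p := by
  classical
  rcases isEmpty_or_nonempty ι with h0 | h0
  · exact ⟨S, hS, fun _ _ _ _ h => h, fun k => h0.elim k⟩
  have e := Fintype.equivFin ι
  obtain ⟨S', h1, h2, h3⟩ := afl_fin hS
    (fun k => if h : k < Fintype.card ι then c (e.symm ⟨k, h⟩) else c (Classical.arbitrary ι))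
    (fun k => if h : k < Fintype.card ι then i (e.symm ⟨k, h⟩) else 0) (Fintype.card ι)
  refine ⟨S', h1, h2, fun k => ?_⟩
  obtain ⟨p, hp⟩ := h3 (e k) (e k).2
  simp only [Fin.is_lt, dif_pos, Fin.eta, Equiv.symm_apply_apply] at hp
  exact ⟨p, hp⟩

/-- **The class with its numbers exists in a subclass.** -/
theorem pka_ex (hn : 2 ≤ n) {al : ℝ} {g₀ : ℝ → ℝ} {s : Fin n → ℝ} {d : ℕ → ℝ} {e : ℝ} {K₀ : ℕ}
    {N : ℚ → ℚ → ℝ} {S₀ : PCl n} (hal : 0 < al) (hg₀ : ∀ ε : ℝ, 0 < ε → 0 < g₀ ε)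
    (hnum : NumX s d) (he : 0 < e) (hC : ClX s d al g₀ e K₀ N S₀) {P : ℝ → ℝ → ℝ} {r : ℝ → ℝ}
    (hT : ThrOf (Pool.ONE.tgs (lst hn)) S₀ (fun _ => P)) (hr : RateOf S₀ (lst hn) r) :
    ∃ (S : PCl n) (P' : ℕ → List (Fin n) × Fin n → ℝ → ℝ → ℝ)
      (Λ : Finset (Fin n) → Fin n → ℝ → ℝ → ℝ)
      (pa : Equiv.Perm (Fin (n - 1)) → Fin n → ℝ → ℝ), PkA hn S P r P' Λ pa := by
  obtain ⟨S₁, P', Λ, hs, hC', H₁⟩ := pk_ex hn hal hg₀ hC hT hr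
  obtain ⟨S, hne, hsub, hA⟩ := afl_all (ι := Equiv.Perm (Fin (n - 1)) × Fin n) H₁.ne
    (fun k => cc hn k.1) (fun k => k.2)
  choose p hp using hA
  exact ⟨S, P', Λ, fun σ i => p (σ, i), ⟨pk_subc H₁ hne hsub,
    ⟨al, g₀, s, d, e, K₀, N, hal, hg₀, hnum, he, hC'.sub hne hsub⟩, fun σ i => hp (σ, i)⟩⟩

end

/-- **The calm levels**: the numbers of the second coordinates. -/
noncomputable def vc (Λ : Finset (Fin 4) → Fin 4 → ℝ → ℝ → ℝ) (w : ℝ) : ℝ :=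
  Λ {0} 1 w w + Λ {0} 2 w w

/-- **The facts for two windows.** `c`: the order; `β i`, `i < 3`: the numbers of the affine chart at
the window `w₀`, `β 3`: the threshold of the affine labels of the last coordinate; `y`: the falls of
the calm levels; `mv`: the fall of the falling level against the affine chart, `mt`: its true fall;
`b`: the exact numbers at the window `w₁`. -/
structure PrOk (hn : 2 ≤ 4) (S : PCl 4) (P : ℝ → ℝ → ℝ) (w₀ w₁ P1 cD η Cp : ℝ) (c : ℕ → Fin 4)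
    (β : ℕ → ℝ) (y mv mt b : ℝ) : Prop where
  lst : c 3 = lst hn
  cov : ∀ j, j ≠ c 3 → ∃ i : Fin 3, c i = j
  ex : ExvY S w₁ (fun J F ω (i : Fin 3) => F.X J ω (c i)) b
  b0 : 0 ≤ β 3
  bP : β 3 ≤ P w₀ w₀
  no : ∀ h₀ : ℝ, 0 < h₀ → Bas S (fun J F A => ∀ P : ℕ, (β 3 + h₀) * J ≤ P → P ≤ J →
    ¬ Pool.PM26.Afl F c 3 ⌊w₀ * J⌋₊ P A)
  y0 : 0 ≤ y
  mt_le : mt ≤ mv
  sum : ∑ i ∈ range 3, (1 - β i) - mv - y ≤ b
  pl : PlnMS S c β w₀ w₁ y P1 (1 - cD / 2 - P1) mv (min (cD / 16) mt) η Cp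

/-- **The facts hold** at the pairs of windows, before the window `u` at which the last row is
reached. -/
def PairU (hn : 2 ≤ 4) (S : PCl 4) (P : ℝ → ℝ → ℝ) (r : ℝ → ℝ)
    (P' : ℕ → List (Fin 4) × Fin 4 → ℝ → ℝ → ℝ) (Λ : Finset (Fin 4) → Fin 4 → ℝ → ℝ → ℝ)
    (pa : Equiv.Perm (Fin (4 - 1)) → Fin 4 → ℝ → ℝ) (u : ℝ) : Prop :=
  ∀ η : ℝ, 0 < η → ∃ Cp A η₀ : ℝ, 2 ≤ Cp ∧ 1 ≤ A ∧ 0 < η₀ ∧ ∀ {w₀ w₁ P1 cD : ℝ},
    w₀ ∈ Wp P P' Λ pa → w₁ ∈ Wp P P' Λ pa → 0 < w₀ → u - η₀ < w₀ → w₁ < u → 0 < cD →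
    (∀ j, tht j < cD / 2 → ∃ α, TwoW hn S P r (tht j) (P' j) w₀ w₁ α
      (cc hn (ow Λ w₀)) (cc hn (ow Λ w₁)) P1 cD) →
    ∃ (c : ℕ → Fin 4) (β : ℕ → ℝ) (y mv mt b : ℝ), PrOk hn S P w₀ w₁ P1 cD η Cp c β y mv mt b ∧
      vx P P' Λ w₁ - vx P P' Λ w₀ ≤ y + mt ∧ y ≤ A * ((u - w₀) + (vc Λ w₁ - vc Λ w₀))

/-- **The input before the window at which the last row is reached**, if all last rows have a defect
and the threshold is continuous there: the pairs of windows; the calm levels. -/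
def PairM (hn : 2 ≤ 4) (S : PCl 4) (P : ℝ → ℝ → ℝ) (r : ℝ → ℝ)
    (P' : ℕ → List (Fin 4) × Fin 4 → ℝ → ℝ → ℝ) (Λ : Finset (Fin 4) → Fin 4 → ℝ → ℝ → ℝ)
    (pa : Equiv.Perm (Fin (4 - 1)) → Fin 4 → ℝ → ℝ) : Prop :=
  ∀ u : ℝ, LastW P u → BadR r → ConT P u → PairU hn S P r P' Λ pa u ∧
    ∀ k : Fin 4, k ≠ 0 → k ≠ lst hn → CalmB (fun w => Λ {0} k w w) (Wp P P' Λ pa) u

end Pool.PM
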