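import Pool.Agent.H22.M.TopM
import Pool.Agent.H22.M.Pka
import Pool.Agent.H96.R1.End
import Pool.Agent.H71.MKC.Asd
import Pool.Agent.H71.GEN.Kpf
import Pool.Agent.H49.PM.CasM

/-!
# Plan M: the last rows in dimension four

`noAt_loc`: if all last rows have a defect, the threshold is continuous at the window at which the
last row is reached, for any number of coordinates, from the statement for one falling level and the
continuity of the volume there. `topW_pk`: from the facts for the pairs of windows (`PairM`), the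
statement for one falling level and the continuity of the volume at the window at which the last row
is reached if the threshold has a jump there, the last rows of a class in dimension four.
`topW_loc`: the same for the class of every local statement.
-/

set_option autoImplicit false

namespace Pool.PM

open Finset Real
open Pool.Agent.H49.Ent Pool.Agent.H32.Dense Pool.STK Pool.KA Pool.KSAT Pool.K2S Pool.PB
open Pool.GEN Pool.S6C Pool.GRW Pool.PKG Pool.R1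
open Pool.CHT (chsys bet)
open Pool.LBT (ThrOf)
open Pool.ONE (lst LocN Mic Sta Jmp)
open Pool.ALL (RateOf)
open Pool.TOP (TopS RW)
open Pool.STR (R1D TopW FinW)
open Pool.M3F (ExvY)
open Pool.PM93 (AflOf)

section

variable {n : ℕ}

/-- The windows of a package, extended outside of the unit interval. -/
def Wq (P : ℝ → ℝ → ℝ) (P' : ℕ → List (Fin n) × Fin n → ℝ → ℝ → ℝ)
    (Λ : Finset (Fin n) → Fin n → ℝ → ℝ → ℝ) (pa : Equiv.Perm (Fin (n - 1)) → Fin n → ℝ → ℝ) :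
    Set ℝ := Wp P P' Λ pa ∪ (Set.Iio 0 ∪ Set.Ioi 1)

variable {hn : 2 ≤ n} {S : PCl n} {P : ℝ → ℝ → ℝ} {r : ℝ → ℝ}
  {P' : ℕ → List (Fin n) × Fin n → ℝ → ℝ → ℝ} {Λ : Finset (Fin n) → Fin n → ℝ → ℝ → ℝ}
  {pa : Equiv.Perm (Fin (n - 1)) → Fin n → ℝ → ℝ}

theorem wq_in {w : ℝ} (hw : w ∈ Wq P P' Λ pa) (h0 : 0 < w) (h1 : w ≤ 1) :
    w ∈ Wp P P' Λ pa := by
  rcases hw with h | h | h
  · exact h
  · rw [Set.mem_Iio] at h
    linarith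
  · rw [Set.mem_Ioi] at h
    linarith

theorem wq_dense (H : PkA hn S P r P' Λ pa) : Dense (Wq P P' Λ pa) := by
  have h3 : ∀ᵐ w : ℝ, w ∉ ({0, 1} : Set ℝ) :=
    (Set.toFinite ({0, 1} : Set ℝ)).countable.ae_notMem _
  have h4 : ∀ᵐ w : ℝ, w ∈ Wq P P' Λ pa := by
    filter_upwards [wp_ae H, h3] with w b1 b3
    rcases lt_trichotomy w 0 with h | h | h
    · exact Or.inr (Or.inl h)
    · exact absurd (Or.inl h) b3
    · rcases lt_trichotomy w 1 with h' | h' | h'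
      · exact Or.inl (b1 h h')
      · exact absurd (Or.inr h') b3
      · exact Or.inr (Or.inr h')
  exact MeasureTheory.Measure.dense_of_ae h4

theorem r1d_wq (hD : R1D P r (vx P P' Λ) (Wd P P' Λ)) : R1D P r (vx P P' Λ) (Wq P P' Λ pa) := by
  intro ε hε
  obtain ⟨δ, hδ, h2⟩ := hD ε hε
  refine ⟨δ, hδ, fun w₀ b0 w₁ b1 a0 a1 a2 a3 => h2 w₀ ?_ w₁ ?_ a0 a1 a2 a3⟩
  · exact Or.inl (wq_in b0 a0 (by linarith)).1
  · exact Or.inl (wq_in b1 (by linarith) a2).1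

/-- **The threshold is continuous at the window at which the last row is reached**, if all last rows
have a defect, for the classes of the local statements. -/
theorem noAt_loc (hG1 : GeoN n) (hM : ∀ k, 2 ≤ k → k < n → Mic k ∧ Sta k ∧ Jmp k)
    (hin : ∀ {hn : 2 ≤ n} {S : PCl n} {P : ℝ → ℝ → ℝ} {r : ℝ → ℝ}
      {P' : ℕ → List (Fin n) × Fin n → ℝ → ℝ → ℝ} {Λ : Finset (Fin n) → Fin n → ℝ → ℝ → ℝ}
      {pa : Equiv.Perm (Fin (n - 1)) → Fin n → ℝ → ℝ},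
      (∀ k, 1 ≤ k → k < n → FZX k) → PkA hn S P r P' Λ pa →
      ∀ u, LastW P u → BadR r → ¬ ConT P u → NoJ (vx P P' Λ) (Wp P P' Λ pa) u) :
    LocN n fun P r => ∀ w, 0 < w → w < 1 → (∀ w₁, w < w₁ → w₁ ≤ 1 → P w₁ w₁ = 1) →
      (∀ Q, 0 ≤ Q → Q < 1 → 0 < nfr r Q 1) → ∀ a, a < 1 → ∃ w₀, 0 < w₀ ∧ w₀ < w ∧ a < P w₀ w₀ := by
  intro hn hZ al g₀ s d hal hg₀ hnum e K₀ N S₀ he hC P r hT hr u hu0 hu1 htop hbad a ha
  obtain ⟨S, P', Λ, pa, H⟩ := pka_ex hn hal hg₀ hnum he hC hT hr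
  refine noAt_of (V := vx P P' Λ) H.rate.lip (wq_dense H)
    (fun w h0 h1 => ⟨H.tgs.low () w w h0.le le_rfl h1, H.tgs.up () w w h0.le le_rfl h1⟩)
    (r1d_wq (r1d_pk hG1 hM hZ H.toPk H.hcl)) hbad (fun u hu hcon t ht => ?_) hu0 hu1 htop ha
  obtain ⟨η, hη, h5⟩ := hin hZ H u hu hbad hcon t ht
  refine ⟨η, hη, fun w₀ b0 w₁ b1 c0 c1 c2 c3 c4 c5 => ?_⟩
  have hu1 := hu.2.1
  exact h5 w₀ (wq_in b0 c0 (by linarith)) w₁ (wq_in b1 (by linarith) c5) c0 c1 c2 c3 c4 c5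

end

variable {hn : 2 ≤ 4} {S : PCl 4} {P : ℝ → ℝ → ℝ} {r : ℝ → ℝ}
  {P' : ℕ → List (Fin 4) × Fin 4 → ℝ → ℝ → ℝ} {Λ : Finset (Fin 4) → Fin 4 → ℝ → ℝ → ℝ}
  {pa : Equiv.Perm (Fin (4 - 1)) → Fin 4 → ℝ → ℝ}

/-- **The rows of two windows.** -/
theorem rowM_two {Ca : ℕ}
    (hasm : ∀ {m : ℕ}, KP 3 → CasM m 30 → ∀ {S : PCl m}, S.Ne →
      ∀ {c : ℕ → Fin m} {w₀ w₁ : ℝ}, w₀ ≤ w₁ → w₁ ≤ 1 → Pool.GRW.TmWn S w₀ → ∀ {b : ℝ},
      ExvY S w₁ (fun J F ω (i : Fin 3) => F.X J ω (c i)) b →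
      (∀ j, j ≠ c 3 → ∃ i : Fin 3, c i = j) → ∀ {r : ℝ → ℝ}, Pool.ALL.RateOf S (c 3) r →
      ∀ {β : ℕ → ℝ}, 0 ≤ β 3 → (∀ h₀ : ℝ, 0 < h₀ → Bas S (fun J F A => ∀ P : ℕ,
        (β 3 + h₀) * J ≤ P → P ≤ J → ¬ Pool.PM26.Afl F c 3 ⌊w₀ * J⌋₊ P A)) →
      ∀ {y P1 sg mv cc Cp : ℝ}, 2 ≤ Cp →
      PlnMS S c β w₀ w₁ y P1 sg mv cc (1 / (100 * ((Ca : ℝ) + 10))) Cp →
      ∑ i ∈ range 3, (1 - β i) - mv - y ≤ b → 0 ≤ y → 0 ≤ sg → P1 + sg ≤ 1 → cc ≤ P1 + sg →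
      β 3 ≤ P1 → ∀ {s θ : ℝ}, 0 < s → 16 * (Ca + 1) * (2 * Cp + 5) * s ≤ θ → Cp * y ≤ s →
      Cp * (s + θ) ≤ mv → Cp * (s + θ) ≤ cc →
      nfr r (β 3) P1 ≤ 64 * (Ca + 1) * (2 * Cp + 5) * (θ + √(θ * (P1 - β 3))))
    (hKP : KP 3) (H : Pk hn S P r P' Λ) {Cp : ℝ} (hCp : 2 ≤ Cp)
    {w₀ w₁ α P1 cD y mv mt b θ₀ : ℝ} {PP : List (Fin 4) × Fin 4 → ℝ → ℝ → ℝ} {c₀ c₁ c : ℕ → Fin 4}
    {β : ℕ → ℝ} (hT : TwoW hn S P r θ₀ PP w₀ w₁ α c₀ c₁ P1 cD)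
    (h : PrOk hn S P w₀ w₁ P1 cD (1 / (100 * ((Ca : ℝ) + 10))) Cp c β y mv mt b) :
    RowM r (64 * (Ca + 1) * (2 * Cp + 5)) (16 * (Ca + 1) * (2 * Cp + 5)) Cp (β 3) P1 y mt
      (cD / 16) := by
  have hq := Pool.TOP.q_le H.rate hT.cD0 hT.cD1
  have hw1 : w₁ ≤ 1 := (hT.w1α.trans hT.α1).le
  have h5 := hT.cD0
  have h6 := hT.P01
  have h7 := hT.PcD
  have h8 := h.bP
  have h9 := h.b0
  intro s θ hs h1 h2 h3 h4
  exact hasm hKP (Pool.PM49.casM 4) H.ne hT.w01.le hw1 (Pool.GRW.TmC.wn H.tmc w₀) h.ex h.cov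
    (by rw [h.lst]; exact H.rate) h.b0 h.no hCp h.pl h.sum h.y0 (by linarith) (by linarith)
    ((min_le_left _ _).trans (by linarith)) (by linarith) hs h1 h2 (h3.trans h.mt_le)
    (le_min h4 h3)

/-- **The last rows**, for a package. -/
theorem topW_pk (hZ : ∀ k, 1 ≤ k → k < 4 → FZX k)
    (hM : ∀ k, 2 ≤ k → k < 4 → Mic k ∧ Sta k ∧ Jmp k) (H : PkA hn S P r P' Λ pa)
    (hG : PairM hn S P r P' Λ pa) (hD : R1D P r (vx P P' Λ) (Wd P P' Λ))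
    (hv : ∀ u, LastW P u → BadR r → ¬ ConT P u → NoJ (vx P P' Λ) (Wp P P' Λ pa) u) :
    TopW P r := by
  classical
  have hTop : TopS 4 := Pool.TOP.tops_ind hZ hM
  have hW : 3 ≤ 4 → RW (4 - 1) := fun h3 => Pool.TOP.rw_all hZ
    (fun k h1 h2 => Pool.TOP.rowN_of (hM k h1 h2).1 (hM k h1 h2).2.1 (hM k h1 h2).2.2) (4 - 1)
    (by omega) (by omega)
  have hKP : KP 3 := Pool.GEN.kp_fzx (hZ 3 (by omega) (by omega))
  obtain ⟨Ca, hCa, hasm⟩ := Pool.MKC.asm_N 30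
  have hWp : ∀ {w : ℝ}, w ∈ Wq P P' Λ pa → 0 < w → w ≤ 1 → w ∈ Wp P P' Λ pa := wq_in
  have hlaw := H.tgs.law ()
  have hlst : ∀ k : Fin 4, (k : ℕ) < 3 → k ≠ lst hn := by
    intro k hk h
    have := congrArg Fin.val h
    simp only [lst] at this
    omega
  refine topM (V := vx P P' Λ) (c := vc Λ) (W := Wq P P' Λ pa) H.rate.lip H.rate.mono
    (wq_dense H) (fun w h0 h1 => ⟨H.tgs.low () w w h0.le le_rfl h1, H.tgs.up () w w h0.le le_rfl h1⟩)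
    (fun w w' h0 h1 h2 => hlaw.mono h0.le le_rfl h1 h1 le_rfl h2)
    (fun w₀ b0 w₁ b1 h0 h1 h2 => ?_) (r1d_wq hD) (fun u hu hbad hcon t ht => ?_)
    fun u hu hbad hcon => ?_
  · unfold vc
    exact add_le_add (H.lam.mono _ _ _ _ _ _ _ (Finset.Subset.refl _) h1.le h1.le)
      (H.lam.mono _ _ _ _ _ _ _ (Finset.Subset.refl _) h1.le h1.le)
  · obtain ⟨η, hη, h5⟩ := hv u hu hbad hcon t ht
    refine ⟨η, hη, fun w₀ b0 w₁ b1 c0 c1 c2 c3 c4 c5 => ?_⟩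
    exact h5 w₀ (wq_in b0 c0 (by linarith)) w₁ (wq_in b1 (by linarith) c5) c0 c1 c2 c3 c4 c5
  obtain ⟨hG, hf⟩ := hG u hu hbad hcon
  obtain ⟨hu0, hu1, -, -⟩ := hu
  constructor
  · obtain ⟨M, η, hη, h2⟩ := hf 1 (by decide) (hlst 1 (by decide))
    obtain ⟨M', η', hη', h2'⟩ := hf 2 (by decide) (hlst 2 (by decide))
    refine ⟨M + M', min η η', lt_min hη hη', fun w₀ b0 w₁ b1 a0 a1 a2 a3 => ?_⟩
    have e1 := min_le_left η η'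
    have e2 := min_le_right η η'
    have c0 := hWp b0 a0 (by linarith)
    have c1 := hWp b1 (by linarith) (by linarith)
    have g1 := h2 w₀ c0 w₁ c1 a0 (by linarith) a2 a3
    have g2 := h2' w₀ c0 w₁ c1 a0 (by linarith) a2 a3
    simp only at g1 g2
    unfold vc
    linarith
  obtain ⟨Cp, A, η₀, hCp, hA, hη₀, hgeo⟩ := hG (1 / (100 * ((Ca : ℝ) + 10))) (by positivity)
  refine ⟨A, 64 * (Ca + 1) * (2 * Cp + 5), 16 * (Ca + 1) * (2 * Cp + 5), Cp, η₀, hA,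
    by positivity, ?_, by linarith, hη₀, ?_⟩
  · have h1 : (1 : ℝ) ≤ Ca := by exact_mod_cast hCa
    nlinarith
  intro w₀ b0 w₁ b1 a0 a0' g1 g2 P1 cD h1 h2 h3 h4 h5 h6
  have c0 := hWp b0 a0 (by linarith)
  have c1 := hWp b1 (by linarith) (by linarith)
  have hcD1 : cD ≤ 1 - P1 - (r 1 - r P1) := h5
  have ht' : ∀ j : Fin (4 - 1), vs Λ (fun i => bse (ow Λ w₁ i)) w₁ (j + 1) ≤ 1 - cD := by
    intro j
    have h8 := top_gw' H.toPk hTop c1.1.1 j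
    have h9 : cD ≤ 1 - P w₁ w₁ - (r 1 - r (P w₁ w₁)) := h6
    linarith
  have hT : ∀ j, tht j < cD / 2 → ∃ α, TwoW hn S P r (tht j) (P' j) w₀ w₁ α
      (cc hn (ow Λ w₀)) (cc hn (ow Λ w₁)) P1 cD := fun j hj =>
    two_exM H.toPk H.hcl hZ hW c0.1.1 c1.1.1 c1.1 g1.le le_rfl g1
      (by linarith) h3 h1 h4 hcD1 h2 ht' (by linarith) hj
  obtain ⟨c, β, y, mv, mt, b, k1, k2, k3⟩ := hgeo c0 c1 a0 a0' g2 h4 hT
  obtain ⟨j, hj⟩ := tht_ex (c := cD / 2) (by linarith)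
  obtain ⟨α, hT'⟩ := hT j hj
  exact ⟨β 3, y, mt, k1.b0, k1.bP, k2, k3, rowM_two hasm hKP H.toPk hCp hT' k1⟩

/-- **The last rows in dimension four.** -/
theorem topW_loc (hG1 : GeoN 4) (hM : ∀ k, 2 ≤ k → k < 4 → Mic k ∧ Sta k ∧ Jmp k)
    (hin : ∀ {hn : 2 ≤ 4} {S : PCl 4} {P : ℝ → ℝ → ℝ} {r : ℝ → ℝ}
      {P' : ℕ → List (Fin 4) × Fin 4 → ℝ → ℝ → ℝ} {Λ : Finset (Fin 4) → Fin 4 → ℝ → ℝ → ℝ}
      {pa : Equiv.Perm (Fin (4 - 1)) → Fin 4 → ℝ → ℝ},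
      (∀ k, 1 ≤ k → k < 4 → FZX k) → PkA hn S P r P' Λ pa →
      PairM hn S P r P' Λ pa ∧
      ∀ u, LastW P u → BadR r → ¬ ConT P u → NoJ (vx P P' Λ) (Wp P P' Λ pa) u) :
    LocN 4 TopW := by
  intro hn hZ al g₀ s d hal hg₀ hnum e K₀ N S₀ he hC P r hT hr
  obtain ⟨S, P', Λ, pa, H⟩ := pka_ex hn hal hg₀ hnum he hC hT hr
  obtain ⟨h1, h2⟩ := hin hZ H
  exact topW_pk hZ hM H h1 (r1d_pk hG1 hM hZ H.toPk H.hcl) h2

end Pool.PM
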