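import Pool.Agent.H22.M.End
import Pool.Agent.H35.M.NoAtC
import Pool.Agent.H34.NJ.Ful
import Pool.Agent.H69.NJ.Cb

/-!
# Plan M: the last rows in dimension four, the inputs

`HvU`: the geometry of the falling level on both sides of the window `u`. `topW_in`: **the last rows
in dimension four** from `GeoN 4`, the facts for the pairs of windows before the window at which the
last row is reached (`PairU`), and the geometry of the falling level at this window, if the threshold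
has a jump there (`HvU`).
-/

set_option autoImplicit false

namespace Pool.PM

open Finset Real
open Pool.Agent.H49.Ent Pool.Agent.H32.Dense Pool.STK Pool.KA Pool.KSAT Pool.K2S Pool.PB
open Pool.GEN Pool.S6C Pool.GRW Pool.PKG Pool.R1
open Pool.ONE (lst LocN Mic Sta Jmp)
open Pool.TOP (TopS RW)
open Pool.STR (R1D TopW FinW)

section

variable {n : ℕ}

/-- **The geometry of the falling level** at the windows on both sides of `u`, if the volume has a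
jump at `u`. -/
def HvU (hn : 2 ≤ n) (S : PCl n) (P : ℝ → ℝ → ℝ) (P' : ℕ → List (Fin n) × Fin n → ℝ → ℝ → ℝ)
    (Λ : Finset (Fin n) → Fin n → ℝ → ℝ → ℝ) (pa : Equiv.Perm (Fin (n - 1)) → Fin n → ℝ → ℝ)
    (u : ℝ) : Prop :=
  ∀ g : ℝ, 0 < g → (∀ a b : ℝ, a < u → u < b → g ≤ vx P P' Λ b - vx P P' Λ a) →
    ∃ C : ℝ, 1 ≤ C ∧ ∀ ε : ℝ, 0 < ε → ∃ d : ℝ, 0 < d ∧ ∀ w₀ ∈ Wp P P' Λ pa,
      ∀ w₁ ∈ Wp P P' Λ pa, u - d < w₀ → w₀ < u → u < w₁ → w₁ < u + d →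
      ∃ (σ : Equiv.Perm (Fin (n - 1))) (β : ℕ → ℝ) (y mv : ℝ), σ ∈ Og n ∧
        w₀ ≤ β 0 ∧ Λ {cc hn σ 0} (cc hn σ 1) w₀ w₀ ≤ β 1 ∧ y ≤ ε ∧ g - ε ≤ mv ∧
        VPlS S (cc hn σ) β w₀ w₁ y mv (1 / 4) C

variable {hn : 2 ≤ n} {S : PCl n} {P : ℝ → ℝ → ℝ} {r : ℝ → ℝ}
  {P' : ℕ → List (Fin n) × Fin n → ℝ → ℝ → ℝ} {Λ : Finset (Fin n) → Fin n → ℝ → ℝ → ℝ}
  {pa : Equiv.Perm (Fin (n - 1)) → Fin n → ℝ → ℝ}

/-- **The volume has no jump** at the window at which the last row is reached. -/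
theorem noJ_u (H : PkA hn S P r P' Λ pa) (h3 : 3 ≤ n) (hZ : ∀ k, 1 ≤ k → k < n → FZX k)
    (hRW : ∀ k, 2 ≤ k → k < n → RW k) {u : ℝ} (hu : LastW P u) (hbad : BadR r)
    (hv : HvU hn S P P' Λ pa u) : NoJ (vx P P' Λ) (Wp P P' Λ pa) u := by
  obtain ⟨hu0, hu1, -, htop⟩ := hu
  refine NoJ.of_cont (Pool.NAT35.no_atom_pk H.toPk h3 (hZ 2 (by omega) (by omega)) (wp_ae H) hu0 hu1
    (Pool.NJ34.h2_full H.toPk hZ hRW (fun w h1 h2 => htop w h1 h2.le) fun Q h1 h2 => ?_)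
    fun g hg hj => ?_)
  · have := hbad Q h1 h2
    unfold nfr at this
    linarith
  obtain ⟨C, hC, h⟩ := hv g hg hj
  refine ⟨C, hC, fun ε hε => ?_⟩
  obtain ⟨d, hd, h⟩ := h ε hε
  exact ⟨d, hd, fun w₀ b0 w₁ b1 => h w₀ b0.2 w₁ b1.2⟩

end

/-- **The last rows in dimension four.** -/
theorem topW_in (hG1 : GeoN 4) (hM : ∀ k, 2 ≤ k → k < 4 → Mic k ∧ Sta k ∧ Jmp k)
    (hin : ∀ {hn : 2 ≤ 4} {S : PCl 4} {P : ℝ → ℝ → ℝ} {r : ℝ → ℝ}
      {P' : ℕ → List (Fin 4) × Fin 4 → ℝ → ℝ → ℝ} {Λ : Finset (Fin 4) → Fin 4 → ℝ → ℝ → ℝ}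
      {pa : Equiv.Perm (Fin (4 - 1)) → Fin 4 → ℝ → ℝ},
      (∀ k, 1 ≤ k → k < 4 → FZX k) → PkA hn S P r P' Λ pa → ∀ u, LastW P u → BadR r →
      (ConT P u → PairU hn S P r P' Λ pa u) ∧ (¬ ConT P u → HvU hn S P P' Λ pa u)) :
    LocN 4 TopW := by
  refine topW_loc hG1 hM fun {hn S P r P' Λ pa} hZ H => ⟨fun u hu hbad hcon => ⟨?_, fun k hk _ => ?_⟩,
    fun u hu hbad hcon => ?_⟩
  · exact (hin hZ H u hu hbad).1 hcon
  · exact Pool.NJ69.calmB_pk H.toPk (by norm_num) (hZ 2 (by norm_num) (by norm_num))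
      (hZ 3 (by norm_num) (by norm_num)) (Pool.TOP.tops_ind hZ hM) hu hbad hcon rfl hk
      fun w hw => hw.1
  · exact noJ_u H (by norm_num) hZ (Pool.TOP.rw_all hZ
      (fun k h1 h2 => Pool.TOP.rowN_of (hM k h1 h2).1 (hM k h1 h2).2.1 (hM k h1 h2).2.2)) hu hbad
      ((hin hZ H u hu hbad).2 hcon)

end Pool.PM
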