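import Pool.Agent.H22.M.Stm
import Pool.Agent.H58.AFF.Hyp
import Pool.Agent.H71.MKC.Ful

/-!
# Plan M: the statements used in the assembly

`PDat`: the data of one member, `PDat.Ok`: they satisfy `PlnM`. Six samples `e : C8 F.Ω`
(`smp e = ![o, a, b, o', a', b']`): `PDat.Six R`: the pairs are good and the height is known to `R`
digits; `PDat.Dets t`: the five determinants are at most `2 ^ (-t)`. `PDat.Lin p`: the difference of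
the two arrays of a pair is nearly affine in the cell, with a gradient at least `2 ^ (-p)`.
`DetS`: large determinants are rare if the rows are not full. `HypS`: small determinants are rare.
`TubRS`: separated gradients give full rows. `CasM`: the cases.
-/

set_option autoImplicit false

namespace Pool.PM

open Finset Real MvPolynomial
open Pool.Agent.H49.Ent Pool.Agent.H32.Dense Pool.STK Pool.KA Pool.KSAT Pool.K2S Pool.PB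
  Pool.STAT Pool.GEN Pool.M3F Pool.KM7 Pool.S6C Pool.JPN
open Pool.JMN (shf tdg)
open Pool.MKC (C8 smp PC)

variable {m J : ℕ}

/-- The data of one member. -/
structure PDat (F : Fam m J) (K n₀ : ℕ) where
  V₀ : Type
  V₁ : Type
  w₀ : ℕ
  w₁ : ℕ
  h : ℕ
  θ : ℕ
  d : ℕ
  L : ℕ
  Ln : ℕ
  sg : ℕ
  Pn : ℕ
  G : ℕ
  η : ℝ
  g : ℕ → ℕ
  P : V₀ → ℕ → PN
  z₀ : PtT F → V₀
  z₀' : LnT F → V₀
  z₁ : PtT F → V₁
  z₁' : LnT F → V₁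
  lf : V₁ → V₀ → Fin 2 → Fin 4 → ℝ
  br : F.Ω × F.Ω → Fin n₀
  a : F.Ω × F.Ω → (Fin 3 → Fin (K + 1)) → ℝ
  b : F.Ω → (Fin 3 → Fin (K + 1)) → ℝ
  χ : V₀ → Fin 3 → ℝ
  M : F.Ω × F.Ω → ℝ
  E : F.Ω × F.Ω → Prop

namespace PDat

variable {F : Fam m J} {K n₀ : ℕ}

/-- The data satisfy `PlnM`. -/
def Ok (D : PDat F K n₀) (hK : 1 ≤ K) (A : F.Ω → Prop) (c : ℕ → Fin m) : Prop :=
  PlnM hK F A c D.w₀ D.w₁ D.h D.θ D.d D.L D.Ln D.sg D.Pn D.G D.η D.g D.P D.z₀ D.z₀' D.z₁ D.z₁'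
    D.lf D.br D.a D.b D.χ D.M D.E

/-- The sheet `j` of the leaf of the sample `i`, in the chart of the first sample. -/
noncomputable def lfo (D : PDat F K n₀) (e : C8 F.Ω) (i : Fin 6) (j : Fin 2) : Fin 4 → ℝ :=
  D.lf (D.z₁ (ptr F J (smp e i))) (D.z₀ (ptr F J e.1.1.1)) j

/-- The determinant of the leaves of `a`, `b` and of the sample `i`. -/
noncomputable def dts (D : PDat F K n₀) (e : C8 F.Ω) (i : Fin 6) (j : Fin 4) : ℝ :=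
  Pool.AFF.dtl (D.lfo e 1 0) (D.lfo e 1 1) (D.lfo e 2 0) (D.lfo e 2 1) (D.lfo e i 0) (D.lfo e i 1) j

end PDat

/-- The pairs of samples. -/
def prs : List (Fin 6 × Fin 6) :=
  [(0, 1), (1, 0), (0, 2), (2, 0), (1, 2), (3, 4), (4, 3), (3, 5), (5, 3), (4, 5)]

/-- The five determinants. -/
def fiv : List (Fin 6 × Fin 4) := [(0, 2), (0, 3), (4, 2), (4, 3), (5, 3)]

namespace PDat

variable {F : Fam m J} {K n₀ : ℕ}

/-- The pairs are good, and the height is known to `R` digits. -/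
def Six (D : PDat F K n₀) (R : ℕ) (e : C8 F.Ω) : Prop :=
  ∀ q ∈ prs, D.E (smp e q.1, smp e q.2) ∧ D.M (smp e q.1, smp e q.2) * 2 ^ R ≤ 2 ^ D.L

/-- The determinants are small. -/
def Dets (D : PDat F K n₀) (t : ℕ) (e : C8 F.Ω) : Prop := ∀ q ∈ fiv, |D.dts e q.1 q.2| ≤ 1 / 2 ^ t

/-- The difference of the arrays is nearly affine, with a gradient at least `2 ^ (-p)`. -/
def Lin (D : PDat F K n₀) (c : ℕ → Fin m) (p : ℕ) (e : F.Ω × F.Ω) : Prop :=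
  ∃ al, tdg al = 1 ∧
    1 / 2 ^ p ≤ |shf (yc 3 F c D.P D.z₀ D.g D.d e.1) (fun α => D.a e α - D.b e.1 α) al| ∧
    ∀ al', 1 ≤ tdg al' →
      |shf (yc 3 F c D.P D.z₀ D.g D.d e.1) (fun α => D.a e α - D.b e.1 α) al'| ≤
        |shf (yc 3 F c D.P D.z₀ D.g D.d e.1) (fun α => D.a e α - D.b e.1 α) al|

end PDat

/-- The measure of the nonfull rows. -/
def nfr (r : ℝ → ℝ) (u v : ℝ) : ℝ := v - u - (r v - r u)

/-- The law of the member. -/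
noncomputable abbrev pA (F : Fam m J) (A : F.Ω → Prop) : F.Ω → ℝ :=
  Pool.Agent.H49.Ent.cond F.p A True

/-- **(M1) Large determinants are rare if the rows are not full.** `b`: the entropy of the base
given the labels of the window `w₁`. -/
def DetS (S : PCl m) (c : ℕ → Fin m) (r : ℝ → ℝ) (w₀ w₁ b C : ℝ) : Prop :=
  ∀ κ ρ : ℝ, 0 < κ → 0 < ρ → Bas S (fun J F A => ∀ (K n₀ : ℕ) (hK : 1 ≤ K) (D : PDat F K n₀),
    D.Ok hK A c → D.w₀ = ⌊w₀ * J⌋₊ → D.w₁ = ⌊w₁ * J⌋₊ → ∀ R t : ℕ, R ≤ D.L → R ≤ D.Ln →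
    D.h ≤ t → (∀ i < 3, D.g i + D.L ≤ J) → D.g 3 + R ≤ J →
    ∑ i ∈ range 3, ((J : ℝ) - D.g i) - D.L ≤ (b + ρ) * J →
    (r ((D.g 3 + R : ℕ) / J) - r ((D.g 3 : ℕ) / J)) * Real.log 2 * J +
      C * (ρ * J + √((D.L : ℝ) - R) + √(((t : ℝ) + 1) * R) + (t + 1)) < R * Real.log 2 →
    Pe (PC (pA F A) (slam F D.w₀) (ptr F J)) (fun e => D.Six R e ∧ ¬ D.Dets t e) ≤ κ)

/-- **(M2) Small determinants are rare.** `Pa`: the threshold of the affine labels of the height at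
the window `w₀`. -/
def HypS (S : PCl m) (c : ℕ → Fin m) (w₀ Pa C : ℝ) : Prop :=
  ∀ κ h₀ : ℝ, 0 < κ → 0 < h₀ → Bas S (fun J F A => ∀ (K n₀ : ℕ) (hK : 1 ≤ K) (D : PDat F K n₀),
    D.Ok hK A c → D.w₀ = ⌊w₀ * J⌋₊ → ∀ R t : ℕ, R ≤ D.L → R ≤ D.Ln → t ≤ R → D.g 3 + R ≤ J →
    (Pa + h₀) * J + C * (D.h + 1) ≤ D.g 3 + t →
    Pe (PC (pA F A) (slam F D.w₀) (ptr F J)) (fun e => D.Six R e ∧ D.Dets t e) ≤ κ)

/-- **(M3) Separated gradients give full rows.** -/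
def TubRS (S : PCl m) (c : ℕ → Fin m) (r : ℝ → ℝ) (w₀ w₁ b C : ℝ) : Prop :=
  ∀ (K n₀ : ℕ) (hK : 1 ≤ K) (κ ρ : ℝ), 0 < κ → 0 < ρ → Bas S (fun J F A =>
    ∀ D : PDat F K n₀, D.Ok hK A c → D.w₀ = ⌊w₀ * J⌋₊ → D.w₁ = ⌊w₁ * J⌋₊ →
    D.L ≤ D.d → (∀ i < 3, D.g i + D.d ≤ J) →
    ∑ i ∈ range 3, ((J : ℝ) - D.g i) - D.L ≤ (b + ρ) * J →
    ∀ (p : ℕ) (E' : F.Ω × F.Ω → Prop), D.sg ≤ p → p ≤ D.Pn → D.Pn ≤ J →
    (∀ e, E' e → D.E e ∧ Thk D.h D.L D.Ln (D.M e) ∧ D.Lin c p e) →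
    κ ≤ Pe (P2 (pA F A) (slam F D.w₀)) E' →
    nfr r ((p - D.sg : ℕ) / J) ((D.Pn - D.sg : ℕ) / J) ≤
      C * ((D.G + D.h) / J + ρ + √(((D.h : ℝ) / J + ρ) * ((D.Pn - p : ℕ) / J))))

/-- **(M4) The cases**, for one member. `X`: the mesh of the sizes of the gradients. -/
def CasM (m : ℕ) (C : ℕ) : Prop :=
  ∀ (η₂ : ℝ) (Nl : ℕ), 0 < η₂ → η₂ ≤ 1 → ∃ κ : ℝ, 0 < κ ∧ ∀ {J : ℕ} (F : Fam m J)
    (A : F.Ω → Prop) (c : ℕ → Fin m) (K n₀ : ℕ) (hK : 1 ≤ K) (D : PDat F K n₀), D.Ok hK A c →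
    0 < Pe F.p A → D.η < 1 / 2 →
    ∀ X t : ℕ, 1 ≤ X → D.L < Nl * X → D.L ≤ D.d → t + X + C * (D.h + 1) ≤ D.θ →
    t + X + C * (D.h + 1) ≤ D.L →
    ∃ R : ℕ, R ≤ D.L ∧ R ≤ D.Ln ∧
      (R = 0 ∨
        1 - D.η - η₂ ≤ Pe (P2 (pA F A) (slam F D.w₀)) (fun e => D.E e ∧ D.M e * 2 ^ R ≤ 2 ^ D.L)) ∧
      (D.Ln ≤ R + X + C * (D.h + 1) ∨
        (∃ p : ℕ, p + D.L ≤ R + D.d + t + X + C * (D.h + 1) ∧
          κ ≤ Pe (P2 (pA F A) (slam F D.w₀)) (fun e => D.E e ∧ Thk D.h D.L D.Ln (D.M e) ∧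
            D.Lin c (D.sg + D.g 3 + p) e)) ∨
        (D.L ≤ R + X + C * (D.h + 1) ∧
          Pe (PC (pA F A) (slam F D.w₀) (ptr F J)) (fun e => D.Six R e ∧ ¬ D.Dets t e) ≤
            C * (D.η + η₂)))

end Pool.PM
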