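import Pool.Agent.H22.M.Hin
import Pool.Agent.H49.PM.Arh
import Pool.Agent.H57.HV.End

/-!
# Plan M: the last rows in dimension four

`hvU_pk`: the geometry of the falling level at a jump of the volume. `topW4`: **the last rows in
dimension four**, from `GeoN 4` alone (and the rows in the dimensions two, three).
-/

set_option autoImplicit false

namespace Pool.PM

open Finset Real
open Pool.Agent.H49.Ent Pool.Agent.H32.Dense Pool.STK Pool.KA Pool.KSAT Pool.K2S Pool.PB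
open Pool.GEN Pool.S6C Pool.GRW Pool.PKG Pool.R1
open Pool.ONE (lst LocN Mic Sta Jmp)
open Pool.TOP (TopS RW)
open Pool.STR (R1D TopW FinW)

section

variable {hn : 2 ≤ 4} {S : PCl 4} {P : ℝ → ℝ → ℝ} {r : ℝ → ℝ}
  {P' : ℕ → List (Fin 4) × Fin 4 → ℝ → ℝ → ℝ} {Λ : Finset (Fin 4) → Fin 4 → ℝ → ℝ → ℝ}
  {pa : Equiv.Perm (Fin (4 - 1)) → Fin 4 → ℝ → ℝ}

/-- **The geometry of the falling level** at a jump of the volume. -/
theorem hvU_pk (hZ : ∀ k, 1 ≤ k → k < 4 → FZX k) (hRW : ∀ k, 2 ≤ k → k < 4 → RW k)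
    (H : PkA hn S P r P' Λ pa) {u : ℝ} (hu : LastW P u) (hbad : BadR r) :
    HvU hn S P P' Λ pa u := by
  obtain ⟨hu0, hu1, -, htop⟩ := hu
  intro g hg hj
  refine Pool.HV57.hv_pk H (hZ 2 (by norm_num) (by norm_num)) (hZ 3 (by norm_num) (by norm_num))
    hu0 hu1 (Pool.NJ34.h2_full H.toPk hZ hRW (fun w h1 h2 => htop w h1 h2.le) fun Q h1 h2 => ?_)
    hg hj
  have := hbad Q h1 h2
  unfold nfr at this
  linarith

end

/-- **The last rows in dimension four.** -/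
theorem topW4 (hG1 : GeoN 4) (hM : ∀ k, 2 ≤ k → k < 4 → Mic k ∧ Sta k ∧ Jmp k) :
    LocN 4 TopW :=
  topW_in hG1 hM fun hZ H _ hu hbad =>
    ⟨fun hcon => Pool.PM49.pairU_pk hZ hM H hu hbad hcon, fun _ => hvU_pk hZ (Pool.TOP.rw_all hZ
      (fun k h1 h2 => Pool.TOP.rowN_of (hM k h1 h2).1 (hM k h1 h2).2.1 (hM k h1 h2).2.2)) H hu hbad⟩

end Pool.PM
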