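import Pool.Agent.H22.M.Top4
import Pool.Agent.H96.R1.Gnn

/-!
# Plan M: the last rows in dimension four, without hypotheses on the geometry
-/

set_option autoImplicit false

namespace Pool.PM

open Pool.ONE (LocN Mic Sta Jmp)
open Pool.STR (TopW)

/-- **The last rows in dimension four.** -/
theorem topW_four (hM : ∀ k, 2 ≤ k → k < 4 → Mic k ∧ Sta k ∧ Jmp k) : LocN 4 TopW :=
  topW4 (Pool.R1.geo_n 4) hM

end Pool.PM
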